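import Mathlib

/-!
# Averages over finite families of characters of a free abelian group
-/

namespace Pool.Agent.Y576.FA

open Finset

/-- the circle -/
abbrev T : Type := UnitAddCircle

/-- the embedding of the circle in the complex plane -/
noncomputable def e (θ : T) : ℂ := (AddCircle.toCircle θ : ℂ)

theorem e_add (θ η : T) : e (θ + η) = e θ * e η := by
  simp [e, AddCircle.toCircle_add]

@[simp] theorem e_zero : e 0 = 1 := by simp [e]

@[simp] theorem norm_e (θ : T) : ‖e θ‖ = 1 := Circle.norm_coe _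

theorem e_neg (θ : T) : e (-θ) = (starRingEnd ℂ) (e θ) := by
  have h1 : e (-θ) * e θ = 1 := by rw [← e_add, neg_add_cancel, e_zero]
  have h2 : (starRingEnd ℂ) (e θ) * e θ = 1 := by
    rw [← Complex.normSq_eq_conj_mul_self, Complex.normSq_eq_norm_sq, norm_e]
    simp
  have h3 : e θ ≠ 0 := by
    intro h
    have := norm_e θ
    rw [h] at this
    simp at this
  exact mul_right_cancel₀ h3 (h1.trans h2.symm)

theorem e_inj {θ η : T} (h : e θ = e η) : θ = η :=
  AddCircle.injective_toCircle one_ne_zero (Subtype.ext h)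

theorem e_continuous : Continuous e :=
  continuous_subtype_val.comp AddCircle.continuous_toCircle

open Classical in
theorem avg {X : Type} (E : Finset (X →₀ ℤ)) :
    ∃ (Y : Type) (_ : Fintype Y) (_ : Nonempty Y) (χ : Y → ((X →₀ ℤ) →+ T)),
      ∀ u ∈ E, ∑ t, e (χ t u) = if u = 0 then (Fintype.card Y : ℂ) else 0 := by
  classical
  let X₀ : Finset X := E.biUnion fun u => u.support
  let N : ℕ := 1 + ∑ u ∈ E, ∑ x ∈ u.support, (u x).natAbs
  have hN : ∀ u ∈ E, ∀ x, (u x).natAbs < N := by
    intro u hu x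
    by_cases hx : x ∈ u.support
    · have h1 : (u x).natAbs ≤ ∑ x ∈ u.support, (u x).natAbs :=
        Finset.single_le_sum (f := fun x => (u x).natAbs) (fun _ _ => Nat.zero_le _) hx
      have h2 : ∑ x ∈ u.support, (u x).natAbs ≤ ∑ u ∈ E, ∑ x ∈ u.support, (u x).natAbs :=
        Finset.single_le_sum (f := fun u : X →₀ ℤ => ∑ x ∈ u.support, (u x).natAbs)
          (fun _ _ => Nat.zero_le _) hu
      omega
    · rw [Finsupp.notMem_support_iff.1 hx]
      simp only [Int.natAbs_zero]
      omega
  have : NeZero N := ⟨by omega⟩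
  let c : (X₀ → ZMod N) → X → T := fun t x => if h : x ∈ X₀ then ZMod.toAddCircle (t ⟨x, h⟩) else 0
  have hc_add : ∀ t t' x, c (t + t') x = c t x + c t' x := by
    intro t t' x
    by_cases h : x ∈ X₀
    · simp [c, h]
    · simp [c, h]
  have hc_zero : ∀ x, c 0 x = 0 := by
    intro x
    by_cases h : x ∈ X₀
    · simp [c, h]
    · simp [c, h]
  let χ : (X₀ → ZMod N) → ((X →₀ ℤ) →+ T) := fun t =>
    (Finsupp.linearCombination ℤ (c t)).toAddMonoidHom
  have hχ : ∀ t u, χ t u = ∑ x ∈ u.support, u x • c t x := by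
    intro t u
    show Finsupp.linearCombination ℤ (c t) u = _
    rw [Finsupp.linearCombination_apply, Finsupp.sum]
  have hχ_add : ∀ t t' u, χ (t + t') u = χ t u + χ t' u := by
    intro t t' u
    rw [hχ, hχ, hχ, ← Finset.sum_add_distrib]
    refine Finset.sum_congr rfl fun x _ => ?_
    rw [hc_add, smul_add]
  have hχ_zero : ∀ u, χ 0 u = 0 := by
    intro u
    rw [hχ]
    refine Finset.sum_eq_zero fun x _ => ?_
    rw [hc_zero, smul_zero]
  refine ⟨X₀ → ZMod N, inferInstance, inferInstance, χ, fun u hu => ?_⟩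
  let ψ : AddChar (X₀ → ZMod N) ℂ :=
    { toFun := fun t => e (χ t u)
      map_zero_eq_one' := by rw [hχ_zero, e_zero]
      map_add_eq_mul' := fun t t' => by rw [hχ_add, e_add] }
  have hψ : ∀ t, ψ t = e (χ t u) := fun t => rfl
  have h1 := AddChar.sum_eq_ite ψ
  simp only [hψ] at h1
  rw [h1]
  by_cases hu0 : u = 0
  · have h2 : ψ = 0 := by
      ext t
      rw [hψ, hu0, map_zero, e_zero]
      simp
    rw [if_pos h2, if_pos hu0]
  · have h2 : ψ ≠ 0 := by
      intro h
      obtain ⟨x, hx⟩ := Finsupp.ne_iff.1 hu0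
      rw [Finsupp.zero_apply] at hx
      have hxs : x ∈ u.support := Finsupp.mem_support_iff.2 hx
      have hx0 : x ∈ X₀ := Finset.mem_biUnion.2 ⟨u, hu, hxs⟩
      have h3 : ψ (Pi.single ⟨x, hx0⟩ 1) = 1 := by rw [h]; simp
      rw [hψ, ← e_zero] at h3
      have h4 := e_inj h3
      rw [hχ, Finset.sum_eq_single x] at h4
      · have h5 : c (Pi.single ⟨x, hx0⟩ 1) x = ZMod.toAddCircle (1 : ZMod N) := by
          simp [c, hx0]
        rw [h5, ← map_zsmul, ← map_zero (ZMod.toAddCircle (N := N))] at h4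
        have h6 := ZMod.toAddCircle_injective N h4
        rw [zsmul_one, ZMod.intCast_zmod_eq_zero_iff_dvd] at h6
        have h7 := hN u hu x
        have h8 := Int.natAbs_dvd_natAbs.2 h6
        rw [Int.natAbs_natCast] at h8
        have h9 := Nat.le_of_dvd (Int.natAbs_pos.2 hx) h8
        omega
      · intro y hy hyx
        have : c (Pi.single ⟨x, hx0⟩ 1) y = 0 := by
          by_cases h : y ∈ X₀
          · have hne : (⟨y, h⟩ : X₀) ≠ ⟨x, hx0⟩ := fun h' => hyx (congrArg Subtype.val h')
            simp [c, h, Pi.single_eq_of_ne hne]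
          · simp [c, h]
        rw [this, smul_zero]
      · intro h'
        exact absurd hxs h'
    rw [if_neg h2, if_neg hu0]

end Pool.Agent.Y576.FA
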