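import Mathlib
import Pool.Agent.Y576.FA.Char

/-!
# A character which is almost trivial on an almost independent family
-/

namespace Pool.Agent.Y576.FA

open Finset

section

variable {X ι : Type} [Fintype ι] [DecidableEq ι] (v : ι → (X →₀ ℤ)) (K : ι → ℕ)

/-- the box of coefficients -/
def Box : Finset (ι → ℕ) := Fintype.piFinset fun i => Finset.range (K i + 1)

theorem mem_Box {b : ι → ℕ} : b ∈ Box K ↔ ∀ i, b i ≤ K i := by
  simp [Box]

/-- the combination with coefficients `b` -/
noncomputable def wb (b : ι → ℕ) : X →₀ ℤ := ∑ i, (b i : ℤ) • v i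

open Classical in
/-- the number of representations of `u` as a difference -/
noncomputable def cnt (u : X →₀ ℤ) : ℕ :=
  ((Box K ×ˢ Box K).filter fun p => wb v p.1 + u = wb v p.2).card

theorem card_Box_pos : 0 < (Box K).card :=
  Finset.card_pos.2 ⟨fun _ => 0, (mem_Box K).2 fun _ => Nat.zero_le _⟩

theorem cnt_v (i : ι) : K i * (Box K).card ≤ (K i + 1) * cnt v K (v i) := by
  classical
  let Bi : Finset (ι → ℕ) := Fintype.piFinset fun j => if j = i then Finset.range (K i) else
    Finset.range (K j + 1)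
  have hBi : ∀ b, b ∈ Bi ↔ b ∈ Box K ∧ b i < K i := by
    intro b
    simp only [Bi, Fintype.mem_piFinset, mem_Box]
    constructor
    · intro h
      refine ⟨fun j => ?_, by simpa using h i⟩
      by_cases hj : j = i
      · subst hj
        have := h j
        simp at this
        omega
      · have := h j
        simp [hj] at this
        omega
    · rintro ⟨h1, h2⟩ j
      by_cases hj : j = i
      · subst hj; simpa using h2
      · have := h1 j
        simp [hj]
        omega
  have h1 : Bi.card ≤ cnt v K (v i) := by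
    refine Finset.card_le_card_of_injOn (fun b => (b, Function.update b i (b i + 1))) ?_ ?_
    · intro b hb
      obtain ⟨hb1, hb2⟩ := (hBi b).1 hb
      have hb1' := (mem_Box K).1 hb1
      simp only [Finset.coe_filter, Finset.mem_product, Set.mem_ofPred_eq]
      refine ⟨⟨hb1, (mem_Box K).2 fun j => ?_⟩, ?_⟩
      · by_cases hj : j = i
        · subst hj; simp; omega
        · simp [hj, hb1' j]
      · unfold wb
        rw [← Finset.add_sum_erase _ _ (Finset.mem_univ i),
          ← Finset.add_sum_erase (a := i) Finset.univ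
            (fun j => ((Function.update b i (b i + 1) j : ℕ) : ℤ) • v j) (Finset.mem_univ i)]
        have h3 : ∑ j ∈ Finset.univ.erase i, ((Function.update b i (b i + 1) j : ℕ) : ℤ) • v j =
            ∑ j ∈ Finset.univ.erase i, ((b j : ℕ) : ℤ) • v j := by
          refine Finset.sum_congr rfl fun j hj => ?_
          rw [Function.update_of_ne (Finset.ne_of_mem_erase hj)]
        rw [h3, Function.update_self]
        push_cast
        rw [add_smul, one_smul]
        abel
    · intro b _ b' _ h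
      exact congrArg Prod.fst h
  have h2 : (K i + 1) * Bi.card = K i * (Box K).card := by
    have e1 : Bi.card = ∏ j, if j = i then K i else K j + 1 := by
      rw [Fintype.card_piFinset]
      refine Finset.prod_congr rfl fun j _ => ?_
      split_ifs <;> simp
    have e2 : (Box K).card = ∏ j, (K j + 1) := by
      rw [Box, Fintype.card_piFinset]
      simp
    rw [e1, e2, ← Finset.mul_prod_erase _ _ (Finset.mem_univ i),
      ← Finset.mul_prod_erase (a := i) Finset.univ (fun j => K j + 1) (Finset.mem_univ i), if_pos rfl]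
    have e3 : ∏ j ∈ Finset.univ.erase i, (if j = i then K i else K j + 1) =
        ∏ j ∈ Finset.univ.erase i, (K j + 1) := by
      refine Finset.prod_congr rfl fun j hj => ?_
      rw [if_neg (Finset.ne_of_mem_erase hj)]
    rw [e3]
    ring
  calc K i * (Box K).card = (K i + 1) * Bi.card := h2.symm
    _ ≤ (K i + 1) * cnt v K (v i) := Nat.mul_le_mul_left _ h1

theorem cnt_zero (hinj : ∀ b ∈ Box K, ∀ b' ∈ Box K, wb v b = wb v b' → b = b') :
    cnt v K 0 = (Box K).card := by
  classical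
  unfold cnt
  refine Finset.card_bij' (fun p _ => p.1) (fun b _ => (b, b)) ?_ ?_ ?_ ?_
  · intro p hp
    exact (Finset.mem_product.1 (Finset.mem_filter.1 hp).1).1
  · intro b hb
    simp [hb]
  · intro p hp
    obtain ⟨h1, h2⟩ := Finset.mem_filter.1 hp
    obtain ⟨h3, h4⟩ := Finset.mem_product.1 h1
    rw [add_zero] at h2
    have := hinj _ h3 _ h4 h2
    exact Prod.ext rfl this
  · intro b _
    rfl

/-- A family which is almost independent: there is a character which is almost trivial on it, but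
not on `w`. -/
theorem riesz (ρ : ι → ℝ) (hρ : ∀ i, 0 ≤ ρ i) (w : X →₀ ℤ)
    (hind : ∀ c : ι → ℤ, ∀ d : ℤ, (∀ i, |c i| ≤ K i) → |d| ≤ 1 → ∑ i, c i • v i = d • w →
      (∀ i, c i = 0) ∧ d = 0)
    (hsum : ∑ i, ρ i / (K i + 1) ≤ 1 / 2) :
    ∃ χ : (X →₀ ℤ) →+ T,
      1 / 2 ≤ (1 - (e (χ w)).re) - ∑ i, ρ i * (1 - (e (χ (v i))).re) := by
  classical
  have hdiff : ∀ b b' : ι → ℕ, wb v b' - wb v b = ∑ i, ((b' i : ℤ) - b i) • v i := by
    intro b b'
    unfold wb
    rw [← Finset.sum_sub_distrib]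
    refine Finset.sum_congr rfl fun i _ => ?_
    rw [sub_smul]
  have hbd : ∀ b ∈ Box K, ∀ b' ∈ Box K, ∀ i, |((b' i : ℤ) - b i)| ≤ K i := by
    intro b hb b' hb' i
    have h1 := (mem_Box K).1 hb i
    have h2 := (mem_Box K).1 hb' i
    rw [abs_le]
    omega
  have hinj : ∀ b ∈ Box K, ∀ b' ∈ Box K, wb v b = wb v b' → b = b' := by
    intro b hb b' hb' h
    have h1 : ∑ i, ((b' i : ℤ) - b i) • v i = (0 : ℤ) • w := by
      rw [← hdiff, h, sub_self, zero_smul]
    have h2 := (hind _ 0 (hbd b hb b' hb') (by simp) h1).1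
    funext i
    have := h2 i
    omega
  have hw : cnt v K w = 0 := by
    unfold cnt
    rw [Finset.card_eq_zero, Finset.filter_eq_empty_iff]
    rintro ⟨b, b'⟩ hp h
    obtain ⟨hb, hb'⟩ := Finset.mem_product.1 hp
    have h1 : ∑ i, ((b' i : ℤ) - b i) • v i = (1 : ℤ) • w := by
      rw [← hdiff, one_smul]
      simp only at h
      rw [← h]
      abel
    exact one_ne_zero (hind _ 1 (hbd b hb b' hb') (by simp) h1).2
  -- the characters
  let U : Finset (X →₀ ℤ) := insert 0 (insert w (Finset.univ.image v))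
  let E : Finset (X →₀ ℤ) := ((Box K ×ˢ Box K) ×ˢ U).image fun p =>
    wb v p.1.1 - wb v p.1.2 + p.2
  obtain ⟨Y, _, _, χ, hχ⟩ := avg E
  let A : Y → ℂ := fun t => ∑ b ∈ Box K, e (χ t (wb v b))
  have key : ∀ u ∈ U, ∑ t, ((‖A t‖ ^ 2 : ℝ)) * (e (χ t u)).re = Fintype.card Y * cnt v K u := by
    intro u hu
    have h1 : ∀ t, ((‖A t‖ ^ 2 : ℝ) : ℂ) * e (χ t u) =
        ∑ p ∈ Box K ×ˢ Box K, e (χ t (wb v p.1 - wb v p.2 + u)) := by
      intro t
      have h2 : ((‖A t‖ ^ 2 : ℝ) : ℂ) = A t * (starRingEnd ℂ) (A t) := by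
        rw [Complex.mul_conj, Complex.normSq_eq_norm_sq]
      rw [h2, map_sum, Finset.sum_mul_sum, ← Finset.sum_product', Finset.sum_mul]
      refine Finset.sum_congr rfl fun p _ => ?_
      rw [map_add, map_sub, e_add, sub_eq_add_neg, e_add, e_neg]
    have h3 : ∑ t, ((‖A t‖ ^ 2 : ℝ) : ℂ) * e (χ t u) = (Fintype.card Y : ℂ) * cnt v K u := by
      simp_rw [h1]
      rw [Finset.sum_comm]
      have h4 : ∀ p ∈ Box K ×ˢ Box K, ∑ t, e (χ t (wb v p.1 - wb v p.2 + u)) =
          if wb v p.1 + u = wb v p.2 then (Fintype.card Y : ℂ) else 0 := by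
        intro p hp
        rw [hχ _ (Finset.mem_image.2 ⟨(p, u), Finset.mem_product.2 ⟨hp, hu⟩, rfl⟩)]
        have : (wb v p.1 - wb v p.2 + u = 0) ↔ (wb v p.1 + u = wb v p.2) := by
          rw [sub_add_eq_add_sub, sub_eq_zero]
        simp only [this]
      rw [Finset.sum_congr rfl h4, ← Finset.sum_filter, Finset.sum_const, nsmul_eq_mul]
      unfold cnt
      ring
    have h5 := congrArg Complex.re h3
    rw [Complex.re_sum] at h5
    simp only [Complex.re_ofReal_mul] at h5
    rw [h5]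
    norm_cast
  have hUv : ∀ i, v i ∈ U := fun i => by simp [U]
  have k0 := key 0 (by simp [U])
  simp only [map_zero, e_zero, Complex.one_re, mul_one] at k0
  rw [cnt_zero v K hinj] at k0
  have kw := key w (by simp [U])
  rw [hw] at kw
  simp only [Nat.cast_zero, mul_zero] at kw
  have kv : ∀ i, ∑ t, ((‖A t‖ ^ 2 : ℝ)) * (1 - (e (χ t (v i))).re) ≤
      Fintype.card Y * (Box K).card / (K i + 1) := by
    intro i
    have h1 : ∑ t, ((‖A t‖ ^ 2 : ℝ)) * (1 - (e (χ t (v i))).re) =
        Fintype.card Y * (Box K).card - Fintype.card Y * cnt v K (v i) := by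
      rw [← key (v i) (hUv i), ← k0, ← Finset.sum_sub_distrib]
      refine Finset.sum_congr rfl fun t _ => ?_
      ring
    rw [h1, le_div_iff₀ (by positivity)]
    have h2 : (K i : ℝ) * (Box K).card ≤ (K i + 1) * cnt v K (v i) := by
      exact_mod_cast cnt_v v K i
    have h3 : (0 : ℝ) ≤ Fintype.card Y := by positivity
    nlinarith [mul_le_mul_of_nonneg_left h2 h3]
  by_contra hcon
  push Not at hcon
  have hS : (0 : ℝ) < Fintype.card Y * (Box K).card := by
    have h1 : 0 < Fintype.card Y := Fintype.card_pos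
    have h2 := card_Box_pos K
    positivity
  have hneg : ∑ t, ((‖A t‖ ^ 2 : ℝ)) * ((1 - (e (χ t w)).re) -
      ∑ i, ρ i * (1 - (e (χ t (v i))).re) - 1 / 2) < 0 := by
    have hex : ∃ t, 0 < ‖A t‖ ^ 2 := by
      by_contra hc
      push Not at hc
      have : ∑ t, ‖A t‖ ^ 2 ≤ 0 := Finset.sum_nonpos fun t _ => hc t
      rw [k0] at this
      linarith
    obtain ⟨t₀, ht₀⟩ := hex
    refine Finset.sum_neg' (fun t _ => ?_) ⟨t₀, Finset.mem_univ _, ?_⟩
    · exact mul_nonpos_of_nonneg_of_nonpos (by positivity) (by linarith [hcon (χ t)])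
    · exact mul_neg_of_pos_of_neg ht₀ (by linarith [hcon (χ t₀)])
  have hexp : ∑ t, ((‖A t‖ ^ 2 : ℝ)) * ((1 - (e (χ t w)).re) -
      ∑ i, ρ i * (1 - (e (χ t (v i))).re) - 1 / 2) =
      (1 / 2) * ∑ t, (‖A t‖ ^ 2 : ℝ) - ∑ t, ((‖A t‖ ^ 2 : ℝ)) * (e (χ t w)).re -
        ∑ i, ρ i * ∑ t, ((‖A t‖ ^ 2 : ℝ)) * (1 - (e (χ t (v i))).re) := by
    have h1 : ∑ i, ρ i * ∑ t, ((‖A t‖ ^ 2 : ℝ)) * (1 - (e (χ t (v i))).re) =
        ∑ t, ∑ i, ρ i * (((‖A t‖ ^ 2 : ℝ)) * (1 - (e (χ t (v i))).re)) := by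
      rw [Finset.sum_comm]
      exact Finset.sum_congr rfl fun i _ => Finset.mul_sum _ _ _
    rw [h1, Finset.mul_sum, ← Finset.sum_sub_distrib, ← Finset.sum_sub_distrib]
    refine Finset.sum_congr rfl fun t _ => ?_
    have h2 : ∑ i, ρ i * (((‖A t‖ ^ 2 : ℝ)) * (1 - (e (χ t (v i))).re)) =
        (‖A t‖ ^ 2 : ℝ) * ∑ i, ρ i * (1 - (e (χ t (v i))).re) := by
      rw [Finset.mul_sum]
      refine Finset.sum_congr rfl fun i _ => ?_
      ring
    rw [h2]
    ring
  rw [hexp, k0, kw] at hneg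
  have hfin : ∑ i, ρ i * ∑ t, ((‖A t‖ ^ 2 : ℝ)) * (1 - (e (χ t (v i))).re) ≤
      (1 / 2) * (Fintype.card Y * (Box K).card) := by
    calc ∑ i, ρ i * ∑ t, ((‖A t‖ ^ 2 : ℝ)) * (1 - (e (χ t (v i))).re)
        ≤ ∑ i, ρ i * (Fintype.card Y * (Box K).card / (K i + 1)) :=
          Finset.sum_le_sum fun i _ => mul_le_mul_of_nonneg_left (kv i) (hρ i)
      _ = (∑ i, ρ i / (K i + 1)) * (Fintype.card Y * (Box K).card) := by
          rw [Finset.sum_mul]
          refine Finset.sum_congr rfl fun i _ => ?_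
          ring
      _ ≤ (1 / 2) * (Fintype.card Y * (Box K).card) := mul_le_mul_of_nonneg_right hsum hS.le
  linarith

end

end Pool.Agent.Y576.FA
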