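import Mathlib
import Pool.Agent.Y576.CC.Ultra

/-!
# Almost independent selections
-/

namespace Pool.Agent.Y576.FA

open Finset

/-! ### The intervals -/

/-- left end of the interval, and the bound for the number of combinations -/
def st : ℕ → ℕ × ℕ
  | 0 => (0, 3)
  | n + 1 => ((st n).1 + (n + 1) * (st n).2,
      (st n).2 * (2 * ((n + 1) * (st n).2 * (n + 1) * 2 ^ (n + 3)) + 1) ^ ((n + 1) * (st n).2))

/-- left end of the `n`-th interval -/
def a (n : ℕ) : ℕ := (st n).1

/-- bound for the number of combinations before the `n`-th interval -/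
def S (n : ℕ) : ℕ := (st n).2

/-- length of the `n`-th interval -/
def L (n : ℕ) : ℕ := (n + 1) * S n

/-- bound for the coefficients on the `n`-th interval -/
def Kc (n : ℕ) : ℕ := L n * (n + 1) * 2 ^ (n + 3)

theorem a_zero : a 0 = 0 := rfl
theorem S_zero : S 0 = 3 := rfl
theorem a_succ (n : ℕ) : a (n + 1) = a n + L n := rfl
theorem S_succ (n : ℕ) : S (n + 1) = S n * (2 * Kc n + 1) ^ L n := rfl

theorem S_pos (n : ℕ) : 0 < S n := by
  induction n with
  | zero => rw [S_zero]; norm_num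
  | succ n ih => rw [S_succ]; positivity

theorem L_pos (n : ℕ) : 0 < L n := Nat.mul_pos (Nat.succ_pos n) (S_pos n)

theorem a_strictMono : StrictMono a := strictMono_nat_of_lt_succ fun n => by
  rw [a_succ]; have := L_pos n; omega

theorem exists_lt_a (i : ℕ) : ∃ n, i < a (n + 1) :=
  ⟨i, (Nat.lt_succ_self i).trans_le (a_strictMono.le_apply)⟩

open Classical in
/-- the index of the interval containing `i` -/
noncomputable def stg (i : ℕ) : ℕ := Nat.find (exists_lt_a i)

theorem lt_stg (i : ℕ) : i < a (stg i + 1) := by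
  classical
  exact Nat.find_spec (exists_lt_a i)

theorem stg_le (i : ℕ) : a (stg i) ≤ i := by
  classical
  rcases h : stg i with _ | n
  · rw [a_zero]; exact Nat.zero_le _
  · by_contra hcon
    have h1 := Nat.find_min (exists_lt_a i) (m := n) (by
      have : Nat.find (exists_lt_a i) = n + 1 := h
      omega)
    exact h1 (not_le.1 hcon)

theorem stg_eq {i n : ℕ} (h1 : a n ≤ i) (h2 : i < a (n + 1)) : stg i = n := by
  rcases lt_trichotomy (stg i) n with h | h | h
  · have := a_strictMono.monotone (show stg i + 1 ≤ n from h)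
    have := lt_stg i
    omega
  · exact h
  · have := a_strictMono.monotone (show n + 1 ≤ stg i from h)
    have := stg_le i
    omega

theorem stg_lt_iff {i n : ℕ} : i < a n ↔ stg i < n := by
  constructor
  · intro h
    by_contra hcon
    have := a_strictMono.monotone (not_lt.1 hcon)
    have := stg_le i
    omega
  · intro h
    have := a_strictMono.monotone (show stg i + 1 ≤ n from h)
    have := lt_stg i
    omega

/-- the bound for the coefficient at `i` -/
noncomputable def Kb (i : ℕ) : ℕ := Kc (stg i)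

theorem prod_S (n : ℕ) : S n = 3 * ∏ j ∈ range (a n), (2 * Kb j + 1) := by
  induction n with
  | zero => rw [S_zero, a_zero]; simp
  | succ n ih =>
    rw [S_succ, a_succ, Finset.prod_range_add, ih, mul_assoc]
    congr 2
    rw [Finset.prod_congr rfl (g := fun _ => 2 * Kc n + 1), Finset.prod_const, Finset.card_range]
    intro j hj
    rw [Finset.mem_range] at hj
    unfold Kb
    rw [stg_eq (n := n) (Nat.le_add_right _ _) (by rw [a_succ]; omega)]

/-! ### The filters -/

open Pool.Agent.Y576.CC (Ad Ad_infinite Ad_inter exists_Ad)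

/-- the filter attached to `x` -/
def fil (x : ℕ → Bool) : Filter ℕ where
  sets := {U | ∃ k, ∀ n ∈ Ad x, k ≤ n → (Set.Ico (a n) (a (n + 1)) \ U).ncard ≤ k * S n}
  univ_sets := ⟨0, fun n _ _ => by simp⟩
  sets_of_superset := by
    rintro U V ⟨k, hk⟩ hUV
    exact ⟨k, fun n hn hkn => (Set.ncard_le_ncard (Set.sdiff_subset_sdiff_right hUV)
      ((Set.finite_Ico _ _).subset Set.sdiff_subset)).trans (hk n hn hkn)⟩
  inter_sets := by
    rintro U V ⟨k, hk⟩ ⟨l, hl⟩
    refine ⟨k + l, fun n hn hkn => ?_⟩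
    rw [Set.sdiff_inter, add_mul]
    exact (Set.ncard_union_le _ _).trans (add_le_add (hk n hn (by omega)) (hl n hn (by omega)))

theorem mem_fil {x : ℕ → Bool} {U : Set ℕ} :
    U ∈ fil x ↔ ∃ k, ∀ n ∈ Ad x, k ≤ n → (Set.Ico (a n) (a (n + 1)) \ U).ncard ≤ k * S n := Iff.rfl

instance fil_neBot (x : ℕ → Bool) : (fil x).NeBot := by
  rw [Filter.neBot_iff]
  intro hbot
  have : (∅ : Set ℕ) ∈ fil x := by rw [hbot]; trivial
  obtain ⟨k, hk⟩ := mem_fil.1 this
  obtain ⟨n, hn, hkn⟩ := exists_Ad (x := x) k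
  have h1 := hk n hn hkn.le
  have hcard : (Set.Ico (a n) (a (n + 1))).ncard = L n := by
    rw [Set.ncard_eq_toFinset_card', Set.toFinset_Ico, Nat.card_Ico, a_succ]
    omega
  rw [Set.sdiff_empty, hcard, L] at h1
  have h2 := Nat.le_of_mul_le_mul_right h1 (S_pos n)
  omega

theorem Ioi_mem_fil (x : ℕ → Bool) (N : ℕ) : Set.Ioi N ∈ fil x := by
  refine mem_fil.2 ⟨N + 1, fun n _ hn => ?_⟩
  have : Set.Ico (a n) (a (n + 1)) \ Set.Ioi N = ∅ := by
    ext i
    simp only [Set.mem_sdiff, Set.mem_Ioi, not_lt, Set.mem_empty_iff_false, iff_false, not_and,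
      not_le, Set.mem_Ico]
    rintro ⟨hi, _⟩
    have := a_strictMono.le_apply (x := n)
    omega
  rw [this]
  simp

/-- the ultrafilter attached to `x` -/
noncomputable def pt (x : ℕ → Bool) : Ultrafilter ℕ := Ultrafilter.of (fil x)

theorem mem_pt {x : ℕ → Bool} {U : Set ℕ} (h : U ∈ fil x) : U ∈ pt x := Ultrafilter.of_le (fil x) h

theorem pt_le_atTop (x : ℕ → Bool) : (pt x : Filter ℕ) ≤ Filter.atTop := by
  rw [Filter.atTop_basis_Ioi.ge_iff]
  intro N _
  exact mem_pt (Ioi_mem_fil x N)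

/-! ### Greedy selection -/

variable {W : Type*} [AddCommGroup W]

/-- almost independence of the sequence `v` on the `n`-th interval -/
def Diss (n : ℕ) (v : ℕ → W) : Prop :=
  ∀ c : ℕ → ℤ, (∀ j ∈ Ico (a n) (a (n + 1)), |c j| ≤ 2 * Kc n) →
    ∑ j ∈ Ico (a n) (a (n + 1)), c j • v j = 0 → ∀ j ∈ Ico (a n) (a (n + 1)), c j = 0

/-- `v i` is not a bounded combination of earlier selected vectors and of `w` -/
def Free (v : ℕ → W) (w : W) (G : ℕ → Prop) (i : ℕ) : Prop :=
  ∀ (c : ℕ → ℤ) (d x : ℤ), (∀ j < i, |c j| ≤ Kb j) → (∀ j < i, ¬ G j → c j = 0) → |x| ≤ 1 →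
    |d| ≤ Kb i → ∑ j ∈ range i, c j • v j + x • w + d • v i = 0 → d = 0

theorem exists_greedy (v : ℕ → W) (w : W) : ∃ G : ℕ → Prop, ∀ i, G i ↔ Free v w G i := by
  classical
  let step : (i : ℕ) → ((j : ℕ) → j < i → Prop) → Prop := fun i g =>
    Free v w (fun j => ∃ h : j < i, g j h) i
  let G : ℕ → Prop := (wellFounded_lt (α := ℕ)).fix step
  have hG : ∀ i, G i = step i fun j _ => G j := fun i => WellFounded.fix_eq _ _ _
  refine ⟨G, fun i => ?_⟩
  rw [hG i]
  show Free v w (fun j => ∃ h : j < i, G j) i ↔ Free v w G i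
  unfold Free
  refine forall_congr' fun c => forall_congr' fun d => forall_congr' fun x => imp_congr_right
    fun _ => imp_congr ?_ Iff.rfl
  refine forall_congr' fun j => imp_congr_right fun hj => ?_
  simp [hj]

/-- the selected vectors are almost independent -/
theorem greedy_indep {v : ℕ → W} {w : W} {G : ℕ → Prop} (hG : ∀ i, G i ↔ Free v w G i) (N : ℕ)
    (c : ℕ → ℤ) (x : ℤ) (hc : ∀ j < N, |c j| ≤ Kb j) (hc' : ∀ j < N, ¬ G j → c j = 0)
    (hx : |x| ≤ 1) (h : ∑ j ∈ range N, c j • v j + x • w = 0) : ∀ j < N, c j = 0 := by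
  induction N with
  | zero => intro j hj; exact absurd hj (Nat.not_lt_zero j)
  | succ N ih =>
    have hN : c N = 0 := by
      by_cases hg : G N
      · refine (hG N).1 hg c (c N) x (fun j hj => hc j (hj.trans (Nat.lt_succ_self N)))
          (fun j hj => hc' j (hj.trans (Nat.lt_succ_self N))) hx (hc N (Nat.lt_succ_self N)) ?_
        rw [← h, Finset.sum_range_succ]
        abel
      · exact hc' N (Nat.lt_succ_self N) hg
    have h2 := ih (fun j hj => hc j (hj.trans (Nat.lt_succ_self N)))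
      (fun j hj => hc' j (hj.trans (Nat.lt_succ_self N))) (by
        rw [← h, Finset.sum_range_succ, hN, zero_smul, add_zero])
    intro j hj
    rcases Nat.lt_succ_iff_lt_or_eq.1 hj with h3 | h3
    · exact h2 j h3
    · rw [h3]; exact hN

theorem sum_split (v : ℕ → W) (c : ℕ → ℤ) (d : ℤ) {n m : ℕ} (h1 : a n ≤ m) (h2 : m < a (n + 1)) :
    ∑ j ∈ Ico (a n) (a (n + 1)), (if j < m then c j else if j = m then d else 0) • v j =
      ∑ j ∈ Ico (a n) m, c j • v j + d • v m := by
  classical
  rw [← Finset.sum_Ico_consecutive _ h1 h2.le, ← Finset.sum_Ico_consecutive _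
    (Nat.le_succ m) (show m + 1 ≤ a (n + 1) from h2)]
  congr 1
  · refine Finset.sum_congr rfl fun j hj => ?_
    rw [if_pos (Finset.mem_Ico.1 hj).2]
  · rw [Nat.Ico_succ_singleton, Finset.sum_singleton]
    have h3 : ∑ j ∈ Ico (m + 1) (a (n + 1)), (if j < m then c j else if j = m then d else 0) • v j
        = 0 := by
      refine Finset.sum_eq_zero fun j hj => ?_
      have := (Finset.mem_Ico.1 hj).1
      rw [if_neg (by omega), if_neg (by omega), zero_smul]
    rw [h3, add_zero, if_neg (lt_irrefl m), if_pos rfl]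

/-- few indices are omitted -/
theorem card_not_greedy {v : ℕ → W} {w : W} {G : ℕ → Prop} (hG : ∀ i, G i ↔ Free v w G i) {n : ℕ}
    (hd : Diss n v) : (Set.Ico (a n) (a (n + 1)) \ {m | G m}).ncard ≤ S n := by
  classical
  let B : Finset ℕ := (Ico (a n) (a (n + 1))).filter fun m => ¬ G m
  have hB : Set.Ico (a n) (a (n + 1)) \ {m | G m} = (B : Set ℕ) := by
    ext m; simp [B]
  rw [hB, Set.ncard_coe_finset]
  have hex : ∀ m : ℕ, ∃ (c : ℕ → ℤ) (d x : ℤ), m ∈ B → (∀ j < m, |c j| ≤ Kb j) ∧ |x| ≤ 1 ∧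
      |d| ≤ Kb m ∧ ∑ j ∈ range m, c j • v j + x • w + d • v m = 0 ∧ d ≠ 0 := by
    intro m
    by_cases hm : m ∈ B
    · have h1 : ¬ Free v w G m := fun h => (Finset.mem_filter.1 hm).2 ((hG m).2 h)
      unfold Free at h1
      push Not at h1
      obtain ⟨c, d, x, h1, _, h3, h4, h5, h6⟩ := h1
      exact ⟨c, d, x, fun _ => ⟨h1, h3, h4, h5, h6⟩⟩
    · exact ⟨0, 0, 0, fun h => absurd h hm⟩
  choose c d x hcd using hex
  let r : ℕ → W := fun m => ∑ j ∈ range (a n), c m j • v j + x m • w
  let R : Finset W := ((Fintype.piFinset fun j : Fin (a n) => Finset.Icc (-(Kb j : ℤ)) (Kb j)) ×ˢ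
    Finset.Icc (-1 : ℤ) 1).image fun p => ∑ j : Fin (a n), p.1 j • v j + p.2 • w
  have hR : R.card ≤ S n := by
    refine Finset.card_image_le.trans ?_
    rw [Finset.card_product, Fintype.card_piFinset, prod_S, Finset.prod_range, mul_comm]
    apply le_of_eq
    congr 1
    refine Finset.prod_congr rfl fun j _ => ?_
    rw [Int.card_Icc]
    omega
  refine le_trans (Finset.card_le_card_of_injOn r ?_ ?_) hR
  · intro m hm
    obtain ⟨h1, h2, _⟩ := hcd m hm
    have hm1 := (Finset.mem_Ico.1 (Finset.mem_filter.1 hm).1).1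
    refine Finset.mem_coe.2 (Finset.mem_image.2 ⟨(fun j => c m j, x m), ?_, ?_⟩)
    · rw [Finset.mem_product, Fintype.mem_piFinset]
      refine ⟨fun j => ?_, ?_⟩
      · rw [Finset.mem_Icc]
        exact abs_le.1 (h1 j (j.2.trans_le hm1))
      · rw [Finset.mem_Icc]
        exact abs_le.1 h2
    · show ∑ j : Fin (a n), c m j • v j + x m • w = r m
      rw [← Finset.sum_range fun j => c m j • v j]
  · -- injectivity
    have main : ∀ m ∈ B, ∀ m' ∈ B, m < m' → r m ≠ r m' := by
      intro m hm m' hm' hlt heq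
      obtain ⟨h1, _, h3, h4, _⟩ := hcd m hm
      obtain ⟨h1', _, h3', h4', h5'⟩ := hcd m' hm'
      obtain ⟨hm1, hm2⟩ := Finset.mem_Ico.1 (Finset.mem_filter.1 hm).1
      obtain ⟨hm1', hm2'⟩ := Finset.mem_Ico.1 (Finset.mem_filter.1 hm').1
      have e1 : ∀ k, a n ≤ k → ∑ j ∈ range k, c k j • v j + x k • w + d k • v k =
          r k + (∑ j ∈ Ico (a n) k, c k j • v j + d k • v k) := by
        intro k hk
        rw [← Finset.sum_range_add_sum_Ico _ hk]
        show _ = (∑ j ∈ range (a n), c k j • v j + x k • w) + _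
        abel
      rw [e1 m hm1] at h4
      rw [e1 m' hm1'] at h4'
      let C : ℕ → ℤ := fun j => (if j < m' then c m' j else if j = m' then d m' else 0) -
        (if j < m then c m j else if j = m then d m else 0)
      have hK : ∀ j ∈ Ico (a n) (a (n + 1)), Kb j = Kc n := by
        intro j hj
        unfold Kb
        rw [stg_eq (Finset.mem_Ico.1 hj).1 (Finset.mem_Ico.1 hj).2]
      have hbd : ∀ k, k ∈ Ico (a n) (a (n + 1)) → (∀ j < k, |c k j| ≤ Kb j) → |d k| ≤ Kb k →
          ∀ j ∈ Ico (a n) (a (n + 1)),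
          |(if j < k then c k j else if j = k then d k else 0)| ≤ (Kc n : ℤ) := by
        intro k hk g1 g2 j hj
        split_ifs with q1 q2
        · rw [← hK j hj]; exact g1 j q1
        · rw [← hK k hk]; exact g2
        · simp
      have hC := hd C (fun j hj => by
        have g1 := hbd m' (Finset.mem_filter.1 hm').1 h1' h3' j hj
        have g2 := hbd m (Finset.mem_filter.1 hm).1 h1 h3 j hj
        calc |C j| ≤ _ := abs_sub _ _
          _ ≤ (Kc n : ℤ) + Kc n := add_le_add g1 g2
          _ = 2 * Kc n := by ring) (by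
        simp only [C, sub_smul, Finset.sum_sub_distrib]
        rw [sum_split v (c m') (d m') hm1' hm2', sum_split v (c m) (d m) hm1 hm2]
        have g1 := eq_neg_of_add_eq_zero_right h4
        have g2 := eq_neg_of_add_eq_zero_right h4'
        rw [g1, g2, heq, sub_self]) m' (Finset.mem_filter.1 hm').1
      have : C m' = d m' := by
        show (if m' < m' then c m' m' else if m' = m' then d m' else 0) -
          (if m' < m then c m m' else if m' = m then d m else 0) = d m'
        rw [if_neg (lt_irrefl m'), if_pos rfl, if_neg (by omega), if_neg (by omega), sub_zero]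
      rw [this] at hC
      exact h5' hC
    intro m hm m' hm' heq
    rcases lt_trichotomy m m' with h | h | h
    · exact absurd heq (main m hm m' hm' h)
    · exact h
    · exact absurd heq.symm (main m' hm' m hm h)

/-- Joint selection from countably many sequences. -/
theorem exists_select {D : Type*} [Countable D] {τ : D → ℕ → Bool} (hτ : Function.Injective τ)
    {h : D → ℕ → W} (hh : ∀ d, ∃ n₀, ∀ n ≥ n₀, Diss n (h d)) (w : W) :
    ∃ (v : ℕ → W) (G : ℕ → Prop) (U : D → Set ℕ), (∀ d, U d ∈ fil (τ d)) ∧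
      (∀ d, ∀ m ∈ U d, G m ∧ v m = h d m) ∧
      (∀ (N : ℕ) (c : ℕ → ℤ) (x : ℤ), (∀ j < N, |c j| ≤ Kb j) → (∀ j < N, ¬ G j → c j = 0) →
        |x| ≤ 1 → ∑ j ∈ range N, c j • v j + x • w = 0 → ∀ j < N, c j = 0) := by
  classical
  obtain ⟨e, he⟩ := exists_injective_nat D
  -- thin out the almost disjoint family
  have hK : ∀ d : D, ∃ K, ∀ d' : D, e d' < e d → ∀ n ∈ Ad (τ d) ∩ Ad (τ d'), n < K := by
    intro d
    have hfin : (⋃ d' ∈ {d' : D | e d' < e d}, Ad (τ d) ∩ Ad (τ d')).Finite := by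
      refine Set.Finite.biUnion ?_ ?_
      · exact Set.Finite.of_injOn (f := e) (t := Set.Iio (e d)) (fun x hx => hx)
          he.injOn (Set.finite_Iio _)
      · intro d' hd'
        refine Ad_inter fun hcon => ?_
        have : d = d' := hτ hcon
        subst this
        exact lt_irrefl (e d) hd'
    obtain ⟨K, hK⟩ := hfin.bddAbove
    refine ⟨K + 1, fun d' hd' n hn => Nat.lt_succ_of_le (hK ?_)⟩
    exact Set.mem_biUnion (show d' ∈ {d' : D | e d' < e d} from hd') hn
  choose K hK using hK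
  choose n₀ hn₀ using hh
  let A : D → Set ℕ := fun d => {n | n ∈ Ad (τ d) ∧ K d ≤ n}
  have hA : ∀ {d d' n}, n ∈ A d → n ∈ A d' → d = d' := by
    intro d d' n hn hn'
    rcases lt_trichotomy (e d) (e d') with h1 | h1 | h1
    · exact absurd (hK d' d h1 n ⟨hn'.1, hn.1⟩) (not_lt.2 hn'.2)
    · exact he h1
    · exact absurd (hK d d' h1 n ⟨hn.1, hn'.1⟩) (not_lt.2 hn.2)
  -- the combined sequence
  let P : ℕ → D → Prop := fun m d => stg m ∈ A d
  have hP : ∀ {m d d'}, P m d → P m d' → d = d' := fun h1 h2 => hA h1 h2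
  let v : ℕ → W := fun m => if hm : ∃ d, P m d then h hm.choose m else 0
  have hv : ∀ {m d}, P m d → v m = h d m := by
    intro m d hm
    have h1 : ∃ d, P m d := ⟨d, hm⟩
    have h2 : h1.choose = d := hP h1.choose_spec hm
    show (if hm : ∃ d, P m d then h hm.choose m else 0) = h d m
    rw [dif_pos h1, h2]
  obtain ⟨G, hG⟩ := exists_greedy v w
  refine ⟨v, G, fun d => {m | G m ∧ P m d}, fun d => ?_, fun d m hm => ⟨hm.1, hv hm.2⟩,
    greedy_indep hG⟩
  refine mem_fil.2 ⟨K d + n₀ d + 1, fun n hn hkn => ?_⟩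
  have hnA : n ∈ A d := ⟨hn, by omega⟩
  have hPI : ∀ m ∈ Set.Ico (a n) (a (n + 1)), P m d := by
    intro m hm
    show stg m ∈ A d
    rw [stg_eq hm.1 hm.2]
    exact hnA
  have h1 : Set.Ico (a n) (a (n + 1)) \ {m | G m ∧ P m d} ⊆
      Set.Ico (a n) (a (n + 1)) \ {m | G m} := by
    rintro m ⟨hm1, hm2⟩
    exact ⟨hm1, fun hcon => hm2 ⟨hcon, hPI m hm1⟩⟩
  have h2 : Diss n v := by
    intro c hc hsum
    refine hn₀ d n (by omega) c hc ?_
    rw [← hsum]
    refine Finset.sum_congr rfl fun j hj => ?_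
    rw [hv (hPI j ⟨(Finset.mem_Ico.1 hj).1, (Finset.mem_Ico.1 hj).2⟩)]
  calc (Set.Ico (a n) (a (n + 1)) \ {m | G m ∧ P m d}).ncard
      ≤ (Set.Ico (a n) (a (n + 1)) \ {m | G m}).ncard :=
        Set.ncard_le_ncard h1 ((Set.finite_Ico _ _).subset Set.sdiff_subset)
    _ ≤ S n := card_not_greedy hG h2
    _ ≤ (K d + n₀ d + 1) * S n := Nat.le_mul_of_pos_left _ (by omega)

end Pool.Agent.Y576.FA
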