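import Mathlib
import Pool.Agent.Y576.FA.Riesz
import Pool.Agent.Y576.FA.Select

/-!
# Characters with prescribed limits
-/

namespace Pool.Agent.Y576.FA

open Finset Filter Topology

/-! ### Limits along ultrafilters -/

/-- the limit of a sequence in the circle along an ultrafilter -/
noncomputable def plim (p : Ultrafilter ℕ) (u : ℕ → T) : T := (p.map u).lim

theorem tendsto_plim (p : Ultrafilter ℕ) (u : ℕ → T) : Tendsto u p (𝓝 (plim p u)) :=
  (p.map u).le_nhds_lim

theorem plim_eq {p : Ultrafilter ℕ} {u : ℕ → T} {x : T} (h : Tendsto u p (𝓝 x)) : plim p u = x :=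
  tendsto_nhds_unique (tendsto_plim p u) h

/-! ### The sum of the weights -/

/-- the weights -/
noncomputable def wt (i : ℕ) : ℝ := 2 * (stg i + 1) / (Kb i + 1)

theorem wt_nonneg (i : ℕ) : 0 ≤ wt i := by unfold wt; positivity

theorem sum_wt (M : ℕ) : ∑ i ∈ range (a M), wt i ≤ 1 / 2 - 1 / 2 ^ (M + 1) := by
  induction M with
  | zero => rw [a_zero]; norm_num
  | succ M ih =>
    rw [a_succ, Finset.sum_range_add]
    have h1 : ∑ i ∈ range (L M), wt (a M + i) = L M * (2 * (M + 1) / (Kc M + 1)) := by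
      rw [Finset.sum_congr rfl (g := fun _ => (2 * (M + 1) / (Kc M + 1) : ℝ)), Finset.sum_const,
        Finset.card_range, nsmul_eq_mul]
      intro j hj
      rw [Finset.mem_range] at hj
      unfold wt Kb
      rw [stg_eq (n := M) (Nat.le_add_right _ _) (by rw [a_succ]; omega)]
    have h2 : (L M : ℝ) * (2 * (M + 1) / (Kc M + 1)) ≤ 1 / 2 ^ (M + 2) := by
      have hL : (0 : ℝ) < L M := by exact_mod_cast L_pos M
      have hK : (Kc M : ℝ) = L M * (M + 1) * 2 ^ (M + 3) := by
        unfold Kc; push_cast; ring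
      rw [mul_div_assoc', div_le_div_iff₀ (by positivity) (by positivity), hK]
      have : (2 : ℝ) ^ (M + 3) = 2 * 2 ^ (M + 2) := by ring
      rw [this]
      nlinarith
    have h3 : (1 : ℝ) / 2 ^ (M + 1) = 1 / 2 ^ (M + 2) + 1 / 2 ^ (M + 2) := by
      rw [pow_succ 2 (M + 1)]
      field_simp
      norm_num
    rw [h1]
    have h4 : (2 : ℝ) ^ (M + 1 + 1) = 2 ^ (M + 2) := rfl
    rw [h4]
    linarith

theorem sum_wt_le (s : Finset ℕ) : ∑ i ∈ s, wt i ≤ 1 / 2 := by
  have h1 : s ⊆ range (a (s.sup id + 1)) := by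
    intro i hi
    rw [Finset.mem_range]
    have h2 : i ≤ s.sup id := Finset.le_sup (f := id) hi
    have h3 := a_strictMono.le_apply (x := s.sup id + 1)
    omega
  calc ∑ i ∈ s, wt i ≤ ∑ i ∈ range (a (s.sup id + 1)), wt i :=
        Finset.sum_le_sum_of_subset_of_nonneg h1 fun i _ _ => wt_nonneg i
    _ ≤ 1 / 2 - 1 / 2 ^ (s.sup id + 1 + 1) := sum_wt _
    _ ≤ 1 / 2 := by
        have : (0 : ℝ) < 1 / 2 ^ (s.sup id + 1 + 1) := by positivity
        linarith

/-! ### Solving the constraints -/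

theorem re_le_one (θ : T) : (e θ).re ≤ 1 := by
  calc (e θ).re ≤ ‖e θ‖ := Complex.re_le_norm _
    _ = 1 := norm_e θ

theorem solve_finite {X : Type} {v : ℕ → (X →₀ ℤ)} {G : ℕ → Prop} {w : X →₀ ℤ} (hw : w ≠ 0)
    (hG : ∀ (N : ℕ) (c : ℕ → ℤ) (x : ℤ), (∀ j < N, |c j| ≤ Kb j) → (∀ j < N, ¬ G j → c j = 0) →
        |x| ≤ 1 → ∑ j ∈ range N, c j • v j + x • w = 0 → ∀ j < N, c j = 0) (N : ℕ) :
    ∃ χ : (X →₀ ℤ) →+ T, 1 / 2 ≤ 1 - (e (χ w)).re ∧
      ∀ i < N, G i → 1 - (e (χ (v i))).re ≤ 1 / (stg i + 1) := by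
  classical
  let s : Finset ℕ := (range N).filter G
  obtain ⟨χ, hχ⟩ := riesz (ι := s) (fun i => v i) (fun i => Kb i) (fun i => 2 * (stg i + 1))
    (fun i => by positivity) w (by
      intro c d hc hd h
      have h1 : ∑ j ∈ range N, (if h : j ∈ s then c ⟨j, h⟩ else 0) • v j + (-d) • w = 0 := by
        have h2 : ∑ j ∈ range N, (if h : j ∈ s then c ⟨j, h⟩ else 0) • v j =
            ∑ i : s, c i • v i := by
          rw [← Finset.sum_filter_add_sum_filter_not (range N) G]
          have h3 : ∑ j ∈ (range N).filter (fun j => ¬ G j),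
              (if h : j ∈ s then c ⟨j, h⟩ else 0) • v j = 0 := by
            refine Finset.sum_eq_zero fun j hj => ?_
            have : j ∉ s := fun hs => (Finset.mem_filter.1 hj).2 (Finset.mem_filter.1 hs).2
            rw [dif_neg this, zero_smul]
          rw [h3, add_zero, ← Finset.sum_coe_sort]
          refine Finset.sum_congr rfl fun i _ => ?_
          rw [dif_pos i.2]
        rw [h2, h, neg_smul, add_neg_cancel]
      have h2 := hG N _ (-d) (fun j _ => by
        by_cases hj : j ∈ s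
        · rw [dif_pos hj]; exact hc ⟨j, hj⟩
        · rw [dif_neg hj]; simp) (fun j hj hgj => by
        have : j ∉ s := fun hs => hgj (Finset.mem_filter.1 hs).2
        rw [dif_neg this]) (by rwa [abs_neg]) h1
      have h3 : ∀ i : s, c i = 0 := by
        intro i
        have h4 := h2 i (Finset.mem_range.1 (Finset.mem_filter.1 i.2).1)
        rwa [dif_pos i.2] at h4
      refine ⟨h3, ?_⟩
      have h4 : ∑ i : s, c i • v i = 0 := Finset.sum_eq_zero fun i _ => by rw [h3 i, zero_smul]
      rw [h4] at h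
      exact (smul_eq_zero.1 h.symm).resolve_right hw)
    (by
      have h1 := sum_wt_le s
      rw [← Finset.sum_coe_sort] at h1
      exact h1)
  have hnn : ∀ i : s, 0 ≤ 2 * ((stg i : ℝ) + 1) * (1 - (e (χ (v i))).re) := fun i =>
    mul_nonneg (by positivity) (by linarith [re_le_one (χ (v i))])
  refine ⟨χ, ?_, fun i hi hgi => ?_⟩
  · have := Finset.sum_nonneg (s := Finset.univ) fun (i : s) _ => hnn i
    linarith
  · have his : i ∈ s := Finset.mem_filter.2 ⟨Finset.mem_range.2 hi, hgi⟩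
    have h1 := Finset.single_le_sum (s := Finset.univ)
      (f := fun i : s => 2 * ((stg i : ℝ) + 1) * (1 - (e (χ (v i))).re)) (fun i _ => hnn i)
      (Finset.mem_univ ⟨i, his⟩)
    simp only at h1
    have h2 : -1 ≤ (e (χ w)).re := by
      have := Complex.abs_re_le_norm (e (χ w))
      rw [norm_e] at this
      exact (abs_le.1 this).1
    rw [le_div_iff₀ (by positivity)]
    nlinarith

/-- All the constraints can be satisfied. -/
theorem solve {X : Type} {v : ℕ → (X →₀ ℤ)} {G : ℕ → Prop} {w : X →₀ ℤ} (hw : w ≠ 0)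
    (hG : ∀ (N : ℕ) (c : ℕ → ℤ) (x : ℤ), (∀ j < N, |c j| ≤ Kb j) → (∀ j < N, ¬ G j → c j = 0) →
        |x| ≤ 1 → ∑ j ∈ range N, c j • v j + x • w = 0 → ∀ j < N, c j = 0) :
    ∃ χ : (X →₀ ℤ) →+ T, χ w ≠ 0 ∧ ∀ i, G i → 1 - (e (χ (v i))).re ≤ 1 / (stg i + 1) := by
  classical
  choose χ h1 h2 using solve_finite hw hG
  let p : Ultrafilter ℕ := hyperfilter ℕ
  have ht : ∀ u, Tendsto (fun N => χ N u) p (𝓝 (plim p fun N => χ N u)) := fun u => tendsto_plim _ _
  let Ψ : (X →₀ ℤ) →+ T :=
    { toFun := fun u => plim p fun N => χ N u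
      map_zero' := by
        apply plim_eq
        simp only [map_zero]
        exact tendsto_const_nhds
      map_add' := fun u u' => by
        apply plim_eq
        simp only [map_add]
        exact (ht u).add (ht u') }
  have hΨ : ∀ u, Tendsto (fun N => (e (χ N u)).re) p (𝓝 (e (Ψ u)).re) := fun u =>
    (Complex.continuous_re.comp e_continuous).continuousAt.tendsto.comp (ht u)
  refine ⟨Ψ, fun h => ?_, fun i hi => ?_⟩
  · have h3 : (1 / 2 : ℝ) ≤ 1 - (e (Ψ w)).re :=
      ge_of_tendsto' (tendsto_const_nhds.sub (hΨ w)) fun N => h1 N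
    rw [h, e_zero, Complex.one_re] at h3
    norm_num at h3
  · refine le_of_tendsto (tendsto_const_nhds.sub (hΨ (v i))) ?_
    have h3 : ∀ᶠ N in (p : Filter ℕ), i < N := by
      have : (p : Filter ℕ) ≤ atTop := by
        rw [← Nat.cofinite_eq_atTop]
        exact hyperfilter_le_cofinite
      exact this (eventually_gt_atTop i)
    filter_upwards [h3] with N hN
    exact h2 N i hN hi

theorem tendsto_of_re {l : Filter ℕ} {u : ℕ → T}
    (h : Tendsto (fun n => (e (u n)).re) l (𝓝 1)) : Tendsto u l (𝓝 0) := by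
  have hind : IsInducing e := by
    have h1 : IsInducing (AddCircle.toCircle : T → Circle) := by
      have h2 : (AddCircle.toCircle : T → Circle) =
          AddCircle.homeomorphCircle (T := 1) one_ne_zero := by
        funext x
        rw [AddCircle.homeomorphCircle_apply]
      rw [h2]
      exact (AddCircle.homeomorphCircle (T := 1) one_ne_zero).isInducing
    exact IsInducing.subtypeVal.comp h1
  rw [hind.tendsto_nhds_iff, e_zero, tendsto_iff_norm_sub_tendsto_zero]
  have h2 : Tendsto (fun n => Real.sqrt (2 * (1 - (e (u n)).re))) l (𝓝 0) := by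
    have h3 : Tendsto (fun n => 2 * (1 - (e (u n)).re)) l (𝓝 (2 * (1 - 1))) :=
      (tendsto_const_nhds.sub h).const_mul 2
    have h4 := (Real.continuous_sqrt.tendsto (2 * (1 - 1))).comp h3
    rw [sub_self, mul_zero, Real.sqrt_zero] at h4
    exact h4
  refine h2.congr fun n => ?_
  have h5 : ‖e (u n) - 1‖ ^ 2 = 2 * (1 - (e (u n)).re) := by
    have h6 : ‖e (u n)‖ ^ 2 = 1 := by rw [norm_e]; norm_num
    rw [← Complex.normSq_eq_norm_sq, Complex.normSq_apply] at h6
    rw [← Complex.normSq_eq_norm_sq, Complex.normSq_apply]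
    simp only [Complex.sub_re, Complex.one_re, Complex.sub_im, Complex.one_im, sub_zero]
    nlinarith
  rw [← h5, Real.sqrt_sq (norm_nonneg _)]
  rfl

/-- The main lemma: countably many almost independent sequences, attached to different points, can
be given limit `0` by a character which does not vanish at a given element. -/
theorem exists_character {X : Type} {D : Type*} [Countable D] {τ : D → ℕ → Bool}
    (hτ : Function.Injective τ) {h : D → ℕ → (X →₀ ℤ)} (hh : ∀ d, ∃ n₀, ∀ n ≥ n₀, Diss n (h d))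
    {w : X →₀ ℤ} (hw : w ≠ 0) :
    ∃ χ : (X →₀ ℤ) →+ T, χ w ≠ 0 ∧ ∀ d, Tendsto (fun m => χ (h d m)) (pt (τ d)) (𝓝 0) := by
  obtain ⟨v, G, U, hU, hv, hind⟩ := exists_select hτ hh w
  obtain ⟨χ, h1, h2⟩ := solve hw hind
  refine ⟨χ, h1, fun d => tendsto_of_re ?_⟩
  have h3 : Tendsto (fun m => (1 : ℝ) - 1 / (stg m + 1)) (pt (τ d)) (𝓝 1) := by
    have h4 : Tendsto stg (pt (τ d) : Filter ℕ) atTop := by
      rw [tendsto_atTop]
      intro n
      refine (pt_le_atTop (τ d)) ((eventually_ge_atTop (a n)).mono fun m hm => ?_)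
      by_contra hcon
      exact absurd hm (not_le.2 (stg_lt_iff.2 (not_le.1 hcon)))
    have h5 : Tendsto (fun m => (1 : ℝ) - 1 / ((stg m : ℝ) + 1)) (pt (τ d)) (𝓝 (1 - 0)) :=
      tendsto_const_nhds.sub (tendsto_one_div_add_atTop_nhds_zero_nat.comp h4)
    rwa [sub_zero] at h5
  refine tendsto_of_tendsto_of_tendsto_of_le_of_le' h3 tendsto_const_nhds ?_
    (Eventually.of_forall fun m => re_le_one _)
  have h4 : U d ∈ (pt (τ d) : Filter ℕ) := mem_pt (hU d)
  filter_upwards [h4] with m hm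
  obtain ⟨hg, he⟩ := hv d m hm
  have h5 := h2 m hg
  rw [he] at h5
  linarith

end Pool.Agent.Y576.FA
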