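import Mathlib
import Pool.Agent.Y576.CC.Group
import Pool.Agent.Y576.FA.Solve

/-!
# A countably compact group topology on the free abelian group of size continuum
-/

namespace Pool.Agent.Y576.FA

open Cardinal Filter Topology
open Pool.Agent.Y576.CC (Idx mk_Idx mk_Iio_Idx countable_bounded)

/-! ### Names -/

/-- the characters of the free abelian group on the base generators -/
abbrev H : Type := ℕ → T

/-- the compact group -/
abbrev K : Type := H → T

/-- the generators -/
abbrev X : Type := ℕ ⊕ Idx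

/-- the free abelian group -/
abbrev V : Type := X →₀ ℤ

/-- the evaluation -/
noncomputable def ev (z : Idx → K) : V →+ K :=
  (Finsupp.linearCombination ℤ (Sum.elim (fun b φ => φ b) z : X → K)).toAddMonoidHom

theorem ev_def (z : Idx → K) (v : V) :
    ev z v = v.sum fun x k => k • (Sum.elim (fun b φ => φ b) z : X → K) x := by
  show Finsupp.linearCombination ℤ (Sum.elim (fun b φ => φ b) z : X → K) v = _
  rw [Finsupp.linearCombination_apply]

theorem ev_inr (z : Idx → K) (α : Idx) : ev z (Finsupp.single (Sum.inr α) 1) = z α := by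
  rw [ev_def, Finsupp.sum_single_index (by simp)]
  simp

/-- the names which only use stages below `α` -/
def Low (α : Idx) (v : V) : Prop := ∀ β, α ≤ β → v (Sum.inr β) = 0

theorem ev_congr {z z' : Idx → K} {v : V} (h : ∀ β, v (Sum.inr β) ≠ 0 → z β = z' β) :
    ev z v = ev z' v := by
  rw [ev_def, ev_def]
  refine Finsupp.sum_congr fun x hx => ?_
  rcases x with b | β
  · rfl
  · simp only [Sum.elim_inr]
    rw [h β (Finsupp.mem_support_iff.1 hx)]

theorem ev_congr_low {z z' : Idx → K} {v : V} {α : Idx} (hv : Low α v)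
    (h : ∀ β < α, z β = z' β) : ev z v = ev z' v :=
  ev_congr fun β hβ => h β (by
    by_contra hcon
    exact hβ (hv β (not_lt.1 hcon)))

theorem mk_branches : #Idx = #(ℕ → Bool) := by
  rw [mk_Idx]; simp

/-- distinct branches for distinct stages -/
noncomputable def τ : Idx ≃ (ℕ → Bool) := (Cardinal.eq.1 mk_branches).some

/-- a system of sequences of names -/
structure Sys (f : Idx → ℕ → V) : Prop where
  diss : ∀ α, ∃ n₀, ∀ n ≥ n₀, Diss n (f α)
  low : ∀ α n, Low α (f α n)

/-- the value at stage `α` -/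
noncomputable def val (f : Idx → ℕ → V) (α : Idx) (z : Idx → K) : K := fun φ =>
  plim (pt (τ α)) fun n => ev z (f α n) φ

theorem exists_construction {f : Idx → ℕ → V} (hf : Sys f) :
    ∃ z : Idx → K, ∀ α, z α = val f α z := by
  classical
  let ext : (α : Idx) → ((β : Idx) → β < α → K) → Idx → K :=
    fun α g β => if h : β < α then g β h else 0
  let step : (α : Idx) → ((β : Idx) → β < α → K) → K := fun α g => val f α (ext α g)
  let z : Idx → K := (wellFounded_lt (α := Idx)).fix step
  have hz : ∀ α, z α = step α fun β _ => z β := fun α => WellFounded.fix_eq _ _ _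
  refine ⟨z, fun α => ?_⟩
  rw [hz α]
  show val f α (ext α fun β _ => z β) = val f α z
  unfold val
  have : ∀ n, ev (ext α fun β _ => z β) (f α n) = ev z (f α n) := fun n =>
    ev_congr_low (hf.low α n) fun β hβ => dif_pos hβ
  simp only [this]

/-- all stages reached from `α` -/
theorem exists_closed {f : Idx → ℕ → V} (hf : Sys f) (α : Idx) :
    ∃ D : Set Idx, D.Countable ∧ (∀ n β, f α n (Sum.inr β) ≠ 0 → β ∈ D) ∧
      ∀ β ∈ D, ∀ n γ, f β n (Sum.inr γ) ≠ 0 → γ ∈ D := by
  induction α using WellFoundedLT.induction with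
  | _ α ih =>
    have hlow : ∀ n β, f α n (Sum.inr β) ≠ 0 → β < α := by
      intro n β h
      by_contra hcon
      exact h (hf.low α n β (not_lt.1 hcon))
    choose! D h1 h3 h4 using ih
    refine ⟨⋃ n : ℕ, ⋃ β ∈ {β | f α n (Sum.inr β) ≠ 0}, insert β (D β), ?_, ?_, ?_⟩
    · refine Set.countable_iUnion fun n => Set.Countable.biUnion ?_ fun β hβ => ?_
      · have : {β | f α n (Sum.inr β) ≠ 0} = Sum.inr ⁻¹' ((f α n).support : Set X) := by
          ext β; simp
        rw [this]
        exact ((f α n).support.finite_toSet.preimage Sum.inr_injective.injOn).countable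
      · exact (h1 β (hlow n β hβ)).insert β
    · intro n β hβ
      simp only [Set.mem_iUnion]
      exact ⟨n, β, hβ, Set.mem_insert _ _⟩
    · intro β hβ n γ hγ
      simp only [Set.mem_iUnion] at hβ ⊢
      obtain ⟨m, β', hβ', hβ⟩ := hβ
      have hlt := hlow m β' hβ'
      refine ⟨m, β', hβ', Set.mem_insert_of_mem _ ?_⟩
      rcases hβ with rfl | hβ
      · exact h3 β hlt n γ hγ
      · exact h4 β' hlt β hβ n γ hγ

/-- subtracting the new generator keeps a sequence almost independent -/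
theorem diss_sub {f : Idx → ℕ → V} (hf : Sys f) (β : Idx) {n : ℕ} (h : Diss n (f β)) :
    Diss n fun m => f β m - Finsupp.single (Sum.inr β) 1 := by
  intro c hc hsum
  refine h c hc ?_
  have h1 : ∑ j ∈ Finset.Ico (a n) (a (n + 1)), c j • (f β j - Finsupp.single (Sum.inr β) (1 : ℤ)) =
      ∑ j ∈ Finset.Ico (a n) (a (n + 1)), c j • f β j -
        (∑ j ∈ Finset.Ico (a n) (a (n + 1)), c j) • Finsupp.single (Sum.inr β) (1 : ℤ) := by
    rw [Finset.sum_smul, ← Finset.sum_sub_distrib]
    exact Finset.sum_congr rfl fun j _ => smul_sub _ _ _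
  rw [h1] at hsum
  have h2 := DFunLike.congr_fun hsum (Sum.inr β)
  have h3 : (∑ j ∈ Finset.Ico (a n) (a (n + 1)), c j • f β j : V) (Sum.inr β) = 0 := by
    rw [Finsupp.finsetSum_apply]
    refine Finset.sum_eq_zero fun j _ => ?_
    rw [Finsupp.smul_apply, hf.low β j β le_rfl, smul_zero]
  rw [Finsupp.sub_apply, h3, Finsupp.smul_apply, Finsupp.single_eq_same] at h2
  simp only [zero_sub, smul_eq_mul, mul_one, Finsupp.coe_zero, Pi.zero_apply, neg_eq_zero] at h2
  rw [h2, zero_smul, sub_zero] at hsum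
  exact hsum

theorem ev_injective {f : Idx → ℕ → V} (hf : Sys f) {z : Idx → K} (hz : ∀ α, z α = val f α z) :
    Function.Injective (ev z) := by
  classical
  rw [injective_iff_map_eq_zero]
  intro w hw
  by_contra hne
  choose D₀ h1 h2 h3 using exists_closed hf
  let D : Set Idx := ⋃ β ∈ {β | w (Sum.inr β) ≠ 0}, insert β (D₀ β)
  have hD1 : D.Countable := by
    refine Set.Countable.biUnion ?_ fun β _ => (h1 β).insert β
    have : {β | w (Sum.inr β) ≠ 0} = Sum.inr ⁻¹' (w.support : Set X) := by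
      ext β; simp
    rw [this]
    exact (w.support.finite_toSet.preimage Sum.inr_injective.injOn).countable
  have hD2 : ∀ β, w (Sum.inr β) ≠ 0 → β ∈ D := fun β hβ =>
    Set.mem_biUnion (show β ∈ {β | w (Sum.inr β) ≠ 0} from hβ) (Set.mem_insert _ _)
  have hD3 : ∀ β ∈ D, ∀ n γ, f β n (Sum.inr γ) ≠ 0 → γ ∈ D := by
    intro β hβ n γ hγ
    simp only [D, Set.mem_iUnion] at hβ ⊢
    obtain ⟨β', hβ', hβ⟩ := hβ
    refine ⟨β', hβ', Set.mem_insert_of_mem _ ?_⟩
    rcases hβ with rfl | hβ
    · exact h2 β n γ hγ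
    · exact h3 β' β hβ n γ hγ
  have := hD1.to_subtype
  obtain ⟨Ψ, hΨ1, hΨ2⟩ := exists_character (D := D) (τ := fun β => τ β)
    (τ.injective.comp Subtype.val_injective)
    (h := fun β m => f β m - Finsupp.single (Sum.inr (β : Idx)) 1)
    (fun β => (hf.diss β).imp fun n₀ hn₀ n hn => diss_sub hf β (hn₀ n hn)) hne
  let φ : H := fun b => Ψ (Finsupp.single (Sum.inl b) 1)
  have key1 : ∀ v : V, (∀ β, v (Sum.inr β) ≠ 0 → z β φ = Ψ (Finsupp.single (Sum.inr β) 1)) →
      ev z v φ = Ψ v := by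
    intro v hv
    conv_rhs => rw [← Finsupp.sum_single v]
    rw [ev_def, Finsupp.sum, Finsupp.sum, map_sum, Finset.sum_apply]
    refine Finset.sum_congr rfl fun y hy => ?_
    have hy' := Finsupp.mem_support_iff.1 hy
    have e1 : (Finsupp.single y (v y) : V) = v y • Finsupp.single y 1 := by
      rw [Finsupp.smul_single, smul_eq_mul, mul_one]
    rw [e1, map_zsmul, Pi.smul_apply]
    rcases y with b | β
    · rfl
    · simp only [Sum.elim_inr]
      rw [hv β hy']
  have key2 : ∀ β ∈ D, z β φ = Ψ (Finsupp.single (Sum.inr β) 1) := by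
    intro β
    induction β using WellFoundedLT.induction with
    | _ β ih =>
      intro hβ
      rw [hz β]
      apply plim_eq
      have h4 : ∀ n, ev z (f β n) φ = Ψ (f β n) := by
        intro n
        refine key1 _ fun γ hγ => ih γ ?_ (hD3 β hβ n γ hγ)
        by_contra hcon
        exact hγ (hf.low β n γ (not_lt.1 hcon))
      simp only [h4]
      have h5 := (hΨ2 ⟨β, hβ⟩).add_const (Ψ (Finsupp.single (Sum.inr β) 1))
      simpa using h5
  have h4 := key1 w fun β hβ => key2 β (hD2 β hβ)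
  rw [hw] at h4
  exact hΨ1 h4.symm

/-! ### Bookkeeping -/

/-- the set of eventually almost independent sequences -/
abbrev Sq : Type := {v : ℕ → V // ∃ n₀, ∀ n ≥ n₀, Diss n v}

theorem mk_V : #V = 𝔠 := by
  have : #X = 𝔠 := by
    rw [mk_sum, lift_id, lift_id, mk_Idx, mk_nat]
    exact add_eq_right aleph0_le_continuum aleph0_le_continuum
  rw [mk_finsupp_of_infinite, this, mk_int]
  exact max_eq_left aleph0_le_continuum

theorem mk_Sq : #Sq ≤ 𝔠 := by
  refine (mk_subtype_le _).trans ?_
  rw [← power_def, mk_V]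
  simp

/-- the default sequence -/
noncomputable def dflt : ℕ → V := fun n => Finsupp.single (Sum.inl n) 1

theorem dflt_diss (n : ℕ) : Diss n dflt := by
  intro c _ hsum j hj
  have h := DFunLike.congr_fun hsum (Sum.inl j)
  rw [Finsupp.finsetSum_apply, Finset.sum_eq_single j] at h
  · simpa [dflt] using h
  · intro i _ hij
    have : (Sum.inl i : X) ≠ Sum.inl j := fun hc => hij (Sum.inl_injective hc)
    simp [dflt, Finsupp.single_eq_of_ne' this]
  · intro hc
    exact absurd hj hc

theorem dflt_low (α : Idx) (n : ℕ) : Low α (dflt n) := by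
  intro β _
  simp [dflt]

theorem exists_sys : ∃ f : Idx → ℕ → V, Sys f ∧
    ∀ v : ℕ → V, (∃ n₀, ∀ n ≥ n₀, Diss n v) → ∃ α, f α = v := by
  classical
  have hne : Nonempty Sq := ⟨⟨dflt, 0, fun n _ => dflt_diss n⟩⟩
  have h1 : #(Idx × Sq) = #Idx := by
    rw [mk_prod, lift_id, lift_id, mk_Idx]
    exact mul_eq_left aleph0_le_continuum mk_Sq (mk_ne_zero _)
  obtain ⟨g⟩ := Cardinal.eq.1 h1.symm
  let f : Idx → ℕ → V := fun α => if ∀ n, Low α ((g α).2.1 n) then (g α).2.1 else dflt
  refine ⟨f, ⟨fun α => ?_, fun α n => ?_⟩, fun v hv => ?_⟩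
  · by_cases h : ∀ n, Low α ((g α).2.1 n)
    · have : f α = (g α).2.1 := if_pos h
      rw [this]; exact (g α).2.2
    · have : f α = dflt := if_neg h
      rw [this]; exact ⟨0, fun n _ => dflt_diss n⟩
  · by_cases h : ∀ n, Low α ((g α).2.1 n)
    · have : f α = (g α).2.1 := if_pos h
      rw [this]; exact h n
    · have : f α = dflt := if_neg h
      rw [this]; exact dflt_low α n
  · -- the supports are bounded
    have hS : (⋃ n : ℕ, {β | v n (Sum.inr β) ≠ 0}).Countable := by
      refine Set.countable_iUnion fun n => ?_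
      have : {β | v n (Sum.inr β) ≠ 0} = Sum.inr ⁻¹' ((v n).support : Set X) := by
        ext β; simp
      rw [this]
      exact ((v n).support.finite_toSet.preimage Sum.inr_injective.injOn).countable
    obtain ⟨γ, hγ⟩ := countable_bounded hS
    -- there is a late stage at which `v` is handled
    have h2 : ∃ ξ, γ ≤ g.symm (ξ, ⟨v, hv⟩) := by
      by_contra hcon
      push Not at hcon
      have h3 : Function.Injective fun ξ : Idx => (⟨g.symm (ξ, ⟨v, hv⟩), hcon ξ⟩ : Set.Iio γ) := by
        intro ξ ξ' h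
        have h4 := g.symm.injective (congrArg Subtype.val h)
        exact congrArg Prod.fst h4
      have h5 := mk_le_of_injective h3
      rw [mk_Idx] at h5
      exact absurd h5 (not_le.2 (mk_Iio_Idx γ))
    obtain ⟨ξ, hξ⟩ := h2
    refine ⟨g.symm (ξ, ⟨v, hv⟩), ?_⟩
    have h3 : g (g.symm (ξ, ⟨v, hv⟩)) = (ξ, ⟨v, hv⟩) := g.apply_symm_apply _
    have h4 : ∀ n, Low (g.symm (ξ, ⟨v, hv⟩)) ((g (g.symm (ξ, ⟨v, hv⟩))).2.1 n) := by
      intro n β hβ
      rw [h3]
      by_contra hne
      have h5 := hγ β (Set.mem_iUnion.2 ⟨n, hne⟩)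
      exact absurd (hξ.trans hβ) (not_le.2 h5)
    show (if ∀ n, Low _ ((g _).2.1 n) then (g _).2.1 else dflt) = v
    rw [if_pos h4, h3]

/-! ### Almost independent subsequences -/

/-- bounded combinations of the first `N + 1` members are finite in number -/
theorem exists_next {s : ℕ → V} (hs : Function.Injective s) (M N : ℕ) :
    ∃ i, N < i ∧ ∀ (c : ℕ → ℤ) (d : ℤ), (∀ j ≤ N, |c j| ≤ M) → |d| ≤ M →
      ∑ j ∈ Finset.range (N + 1), c j • s j + d • s i = 0 → d = 0 := by
  classical
  by_contra hcon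
  push Not at hcon
  choose! c d h1 h2 h3 h4 using hcon
  -- a finite set of data
  let F : ℕ → (Fin (N + 1) → ℤ) × ℤ := fun i => (fun j => c (N + 1 + i) j, d (N + 1 + i))
  let B : Finset ((Fin (N + 1) → ℤ) × ℤ) :=
    (Fintype.piFinset fun _ => Finset.Icc (-(M : ℤ)) M) ×ˢ Finset.Icc (-(M : ℤ)) M
  have hFB : ∀ i, F i ∈ (B : Set ((Fin (N + 1) → ℤ) × ℤ)) := by
    intro i
    refine Finset.mem_coe.2 (Finset.mem_product.2 ⟨Fintype.mem_piFinset.2 fun j => ?_, ?_⟩)
    · exact Finset.mem_Icc.2 (abs_le.1 (h1 (N + 1 + i) (by omega) j (by omega)))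
    · exact Finset.mem_Icc.2 (abs_le.1 (h2 (N + 1 + i) (by omega)))
  obtain ⟨i, _, i', _, hne, heq⟩ := Set.infinite_univ.exists_ne_map_eq_of_mapsTo
    (f := F) (t := (B : Set ((Fin (N + 1) → ℤ) × ℤ))) (fun i _ => hFB i) B.finite_toSet
  have e1 : d (N + 1 + i) = d (N + 1 + i') := congrArg Prod.snd heq
  have e2 : ∀ j ∈ Finset.range (N + 1), c (N + 1 + i) j • s j = c (N + 1 + i') j • s j := by
    intro j hj
    have := congrFun (congrArg Prod.fst heq) ⟨j, Finset.mem_range.1 hj⟩
    have h5 : c (N + 1 + i) j = c (N + 1 + i') j := this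
    rw [h5]
  have g1 := h3 (N + 1 + i) (by omega)
  have g2 := h3 (N + 1 + i') (by omega)
  rw [Finset.sum_congr rfl e2] at g1
  have g3 : d (N + 1 + i') • s (N + 1 + i) = d (N + 1 + i') • s (N + 1 + i') := by
    rw [← e1]
    rw [← e1] at g2
    exact add_left_cancel (g1.trans g2.symm)
  have g4 := smul_right_injective V (h4 (N + 1 + i') (by omega)) g3
  have := hs g4
  omega

theorem exists_subseq {s : ℕ → V} (hs : Function.Injective s) :
    ∃ σ : ℕ → ℕ, StrictMono σ ∧ ∀ n, Diss n (s ∘ σ) := by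
  classical
  choose nx hnx1 hnx2 using fun M N => exists_next hs M N
  let σ : ℕ → ℕ := fun m => Nat.rec 0 (fun m N => nx (2 * Kb m) N) m
  have hσ : ∀ m, σ (m + 1) = nx (2 * Kb m) (σ m) := fun m => rfl
  have hmono : StrictMono σ := strictMono_nat_of_lt_succ fun m => by
    rw [hσ]; exact hnx1 _ _
  refine ⟨fun m => σ (m + 1), fun m n h => hmono (Nat.succ_lt_succ h), fun n => ?_⟩
  intro c hc hsum
  by_contra hcon
  push Not at hcon
  obtain ⟨j₀, hj₀, hj₀'⟩ := hcon
  let Q : Finset ℕ := (Finset.Ico (a n) (a (n + 1))).filter fun j => c j ≠ 0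
  have hQ : Q.Nonempty := ⟨j₀, Finset.mem_filter.2 ⟨hj₀, hj₀'⟩⟩
  let m : ℕ := Q.max' hQ
  have hmQ : m ∈ Q := Q.max'_mem hQ
  obtain ⟨hm1, hm2⟩ := Finset.mem_filter.1 hmQ
  obtain ⟨hm3, hm4⟩ := Finset.mem_Ico.1 hm1
  have hmax : ∀ j ∈ Finset.Ico (a n) (a (n + 1)), m < j → c j = 0 := by
    intro j hj hmj
    by_contra hne
    exact absurd (Q.le_max' j (Finset.mem_filter.2 ⟨hj, hne⟩)) (not_le.2 hmj)
  have hK : Kb m = Kc n := by unfold Kb; rw [stg_eq hm3 hm4]
  -- cut the sum at `m`
  have h1 : ∑ j ∈ Finset.Ico (a n) m, c j • s (σ (j + 1)) + c m • s (σ (m + 1)) = 0 := by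
    rw [← hsum, ← Finset.sum_Ico_consecutive _ hm3 hm4.le,
      ← Finset.sum_Ico_consecutive _ (Nat.le_succ m) (show m + 1 ≤ a (n + 1) from hm4),
      Nat.Ico_succ_singleton, Finset.sum_singleton]
    have h2 : ∑ j ∈ Finset.Ico (m + 1) (a (n + 1)), c j • (s ∘ fun m => σ (m + 1)) j = 0 := by
      refine Finset.sum_eq_zero fun j hj => ?_
      obtain ⟨hj1, hj2⟩ := Finset.mem_Ico.1 hj
      rw [hmax j (Finset.mem_Ico.2 ⟨by omega, hj2⟩) (by omega), zero_smul]
    rw [h2, add_zero]
    rfl
  let C : ℕ → ℤ := fun i => ∑ j ∈ Finset.Ico (a n) m, if σ (j + 1) = i then c j else 0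
  have hC : ∀ i, |C i| ≤ ((2 * Kb m : ℕ) : ℤ) := by
    intro i
    by_cases hex : ∃ j ∈ Finset.Ico (a n) m, σ (j + 1) = i
    · obtain ⟨j, hj, hji⟩ := hex
      have h2 : C i = c j := by
        show ∑ j ∈ Finset.Ico (a n) m, (if σ (j + 1) = i then c j else 0) = c j
        rw [Finset.sum_eq_single j, if_pos hji]
        · intro j' _ hj'
          rw [if_neg]
          intro hc'
          have := hmono.injective (a₁ := j' + 1) (a₂ := j + 1) (hc'.trans hji.symm)
          exact hj' (by omega)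
        · intro h; exact absurd hj h
      rw [h2, hK]
      have h3 := hc j (Finset.mem_Ico.2 ⟨(Finset.mem_Ico.1 hj).1,
        (Finset.mem_Ico.1 hj).2.trans hm4⟩)
      push_cast
      exact h3
    · have h2 : C i = 0 := by
        refine Finset.sum_eq_zero fun j hj => ?_
        rw [if_neg]
        intro hc'
        exact hex ⟨j, hj, hc'⟩
      rw [h2]
      simp
  have h2 : ∑ i ∈ Finset.range (σ m + 1), C i • s i =
      ∑ j ∈ Finset.Ico (a n) m, c j • s (σ (j + 1)) := by
    simp only [C, Finset.sum_smul]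
    rw [Finset.sum_comm]
    refine Finset.sum_congr rfl fun j hj => ?_
    rw [Finset.sum_eq_single (σ (j + 1)), if_pos rfl]
    · intro i _ hi
      rw [if_neg (fun h => hi h.symm), zero_smul]
    · intro hcon
      have h3 : σ (j + 1) ≤ σ m := hmono.monotone (Finset.mem_Ico.1 hj).2
      exact absurd (Finset.mem_range.2 (Nat.lt_succ_of_le h3)) hcon
  refine hm2 (hnx2 (2 * Kb m) (σ m) C (c m) (fun j _ => hC j) ?_ ?_)
  · rw [hK]
    have h3 := hc m hm1
    push_cast
    exact h3
  · rw [h2, ← hσ]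
    exact h1

end Pool.Agent.Y576.FA
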