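import Mathlib

/-!
# The paratopological group defined by a cone
-/

namespace Pool.Agent.Y576.FA

set_option linter.unusedSectionVars false

open Filter Topology

section

variable {V K : Type} [AddCommGroup V] [AddCommGroup K] [TopologicalSpace K]
  [IsTopologicalAddGroup K] (E : V →+ K) (S : AddSubmonoid V)

/-- the topology: a neighbourhood of `x` consists of the points `x + s` with `s ∈ S` and `E s`
close to `0` -/
@[instance_reducible] def coneTop : TopologicalSpace V where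
  IsOpen O := ∀ x ∈ O, ∃ U ∈ 𝓝 (0 : K), ∀ s ∈ S, E s ∈ U → x + s ∈ O
  isOpen_univ := fun _ _ => ⟨Set.univ, univ_mem, fun _ _ _ => trivial⟩
  isOpen_inter := by
    intro O O' h h' x hx
    obtain ⟨U, hU, h1⟩ := h x hx.1
    obtain ⟨U', hU', h1'⟩ := h' x hx.2
    exact ⟨U ∩ U', inter_mem hU hU', fun s hs hEs => ⟨h1 s hs hEs.1, h1' s hs hEs.2⟩⟩
  isOpen_sUnion := by
    intro F hF x hx
    obtain ⟨O, hO, hxO⟩ := hx
    obtain ⟨U, hU, h1⟩ := hF O hO x hxO
    exact ⟨U, hU, fun s hs hEs => ⟨O, hO, h1 s hs hEs⟩⟩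

theorem coneTop_isOpen {O : Set V} :
    IsOpen[coneTop E S] O ↔ ∀ x ∈ O, ∃ U ∈ 𝓝 (0 : K), ∀ s ∈ S, E s ∈ U → x + s ∈ O := Iff.rfl

/-- the basic neighbourhoods -/
def ball (x : V) (U : Set K) : Set V := {y | y - x ∈ S ∧ E (y - x) ∈ U}

theorem ball_open (x : V) {U : Set K} (hU : IsOpen U) : IsOpen[coneTop E S] (ball E S x U) := by
  intro y hy
  refine ⟨{k | E (y - x) + k ∈ U}, ?_, fun s hs hEs => ?_⟩
  · have h1 : Continuous fun k : K => E (y - x) + k := continuous_const.add continuous_id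
    exact (hU.preimage h1).mem_nhds (by simpa using hy.2)
  · have h1 : y + s - x = (y - x) + s := by abel
    refine ⟨?_, ?_⟩
    · rw [h1]; exact S.add_mem hy.1 hs
    · rw [h1, map_add]; exact hEs

theorem mem_ball_self (x : V) {U : Set K} (hU : (0 : K) ∈ U) : x ∈ ball E S x U := by
  refine ⟨?_, ?_⟩
  · rw [sub_self]; exact S.zero_mem
  · rw [sub_self, map_zero]; exact hU

theorem mem_nhds {x : V} {A : Set V} :
    A ∈ @nhds V (coneTop E S) x ↔ ∃ U : Set K, IsOpen U ∧ (0 : K) ∈ U ∧ ball E S x U ⊆ A := by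
  let _ := coneTop E S
  rw [mem_nhds_iff]
  constructor
  · rintro ⟨O, hOA, hO, hxO⟩
    obtain ⟨U, hU, h1⟩ := hO x hxO
    obtain ⟨U', hU'U, hU', h0⟩ := mem_nhds_iff.1 hU
    refine ⟨U', hU', h0, fun y hy => hOA ?_⟩
    have := h1 (y - x) hy.1 (hU'U hy.2)
    rwa [add_sub_cancel] at this
  · rintro ⟨U, hU, h0, h1⟩
    exact ⟨ball E S x U, h1, ball_open E S x hU, mem_ball_self E S x h0⟩

theorem cone_continuousAdd : @ContinuousAdd V (coneTop E S) _ := by
  let _ := coneTop E S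
  refine ⟨continuous_iff_continuousAt.2 ?_⟩
  rintro ⟨x, y⟩
  intro A hA
  obtain ⟨U, hU, h0, h1⟩ := (mem_nhds E S).1 hA
  have h2 : (fun p : K × K => p.1 + p.2) ⁻¹' U ∈ 𝓝 ((0 : K), (0 : K)) :=
    (hU.preimage continuous_add).mem_nhds (by simpa using h0)
  rw [mem_nhds_prod_iff'] at h2
  obtain ⟨U1, U2, hU1, h01, hU2, h02, h3⟩ := h2
  rw [mem_map, nhds_prod_eq]
  refine mem_of_superset (prod_mem_prod
    ((mem_nhds E S).2 ⟨U1, hU1, h01, subset_rfl⟩) ((mem_nhds E S).2 ⟨U2, hU2, h02, subset_rfl⟩)) ?_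
  rintro ⟨x', y'⟩ ⟨hx', hy'⟩
  refine h1 ⟨?_, ?_⟩
  · have e1 : x' + y' - (x + y) = (x' - x) + (y' - y) := by abel
    show x' + y' - (x + y) ∈ S
    rw [e1]; exact S.add_mem hx'.1 hy'.1
  · have e1 : x' + y' - (x + y) = (x' - x) + (y' - y) := by abel
    show E (x' + y' - (x + y)) ∈ U
    rw [e1, map_add]
    exact h3 (show (E (x' - x), E (y' - y)) ∈ U1 ×ˢ U2 from ⟨hx'.2, hy'.2⟩)

theorem cone_continuous : @Continuous V K (coneTop E S) _ E := by
  let _ := coneTop E S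
  refine continuous_def.2 fun O hO => ?_
  intro x hx
  refine ⟨{k | E x + k ∈ O}, ?_, fun s _ hEs => ?_⟩
  · have h1 : Continuous fun k : K => E x + k := continuous_const.add continuous_id
    exact (hO.preimage h1).mem_nhds (by simpa using hx)
  · show E (x + s) ∈ O
    rw [map_add]; exact hEs

theorem cone_t2 [T2Space K] (hE : Function.Injective E) : @T2Space V (coneTop E S) := by
  let _ := coneTop E S
  exact T2Space.of_injective_continuous hE (cone_continuous E S)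

/-- accumulation points of infinite sets -/
theorem cone_countablyCompact [T2Space K] (hE : Function.Injective E)
    (hacc : ∀ A : Set V, A.Infinite → ∃ x, ∀ U ∈ 𝓝 (0 : K),
      {y ∈ A | y - x ∈ S ∧ E (y - x) ∈ U}.Infinite) :
    @CountablyCompactSpace V (coneTop E S) := by
  let _ := coneTop E S
  have := cone_t2 E S hE
  refine ⟨isCountablyCompact_iff_infinite_subset_has_accPt.2 fun A _ hA => ?_⟩
  obtain ⟨x, hx⟩ := hacc A hA
  refine ⟨x, trivial, ?_⟩
  rw [accPt_iff_nhds]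
  intro W hW
  obtain ⟨U, hU, h0, h1⟩ := (mem_nhds E S).1 hW
  obtain ⟨y, hy, hyx⟩ := (hx U (hU.mem_nhds h0)).exists_notMem_finite (Set.finite_singleton x)
  exact ⟨y, ⟨h1 hy.2, hy.1⟩, hyx⟩

theorem cone_not_neg (hS : ∀ v ∈ S, -v ∈ S → v = 0)
    (hacc : ∃ x : V, ∀ U ∈ 𝓝 (0 : K), {y : V | y - x ∈ S ∧ E (y - x) ∈ U}.Infinite) :
    ¬ @ContinuousNeg V (coneTop E S) _ := by
  let _ := coneTop E S
  intro hneg
  have h1 : Continuous fun v : V => -v := hneg.continuous_neg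
  have h2 : (S : Set V) ∈ 𝓝 (0 : V) :=
    (mem_nhds E S).2 ⟨Set.univ, isOpen_univ, trivial, fun y hy => by simpa using hy.1⟩
  have h3 : {v : V | -v ∈ S} ∈ 𝓝 (0 : V) := by
    have h4 : (S : Set V) ∈ 𝓝 (-(0 : V)) := by rw [neg_zero]; exact h2
    exact h1.continuousAt h4
  obtain ⟨U, hU, h0, h5⟩ := (mem_nhds E S).1 h3
  obtain ⟨x, hx⟩ := hacc
  obtain ⟨y, hy, hyx⟩ := (hx U (hU.mem_nhds h0)).exists_notMem_finite (Set.finite_singleton x)
  have h6 : y - x ∈ ball E S 0 U := by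
    refine ⟨?_, ?_⟩
    · rw [sub_zero]; exact hy.1
    · rw [sub_zero]; exact hy.2
  have h7 := hS (y - x) hy.1 (h5 h6)
  exact hyx (sub_eq_zero.1 h7)

end

end Pool.Agent.Y576.FA
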