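import Mathlib
import Pool.Agent.Y576.FA.Build
import Pool.Agent.Y576.FA.Cone

/-!
# Countably compact group and cone topologies on the free abelian group of size continuum
-/

namespace Pool.Agent.Y576.FA

open Cardinal Filter Topology
open Pool.Agent.Y576.CC (Idx mk_Idx mk_Iio_Idx countable_bounded)

/-- the cone of names with positive leading coefficient -/
def Pos : AddSubmonoid V where
  carrier := {v | v = 0 ∨ ∃ α : Idx, 0 < v (Sum.inr α) ∧ ∀ β, α < β → v (Sum.inr β) = 0}
  zero_mem' := Or.inl rfl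
  add_mem' := by
    rintro v w (rfl | ⟨α, hα, hα'⟩) (rfl | ⟨β, hβ, hβ'⟩)
    · exact Or.inl (add_zero 0)
    · exact Or.inr ⟨β, by simpa using hβ, by simpa using hβ'⟩
    · exact Or.inr ⟨α, by simpa using hα, by simpa using hα'⟩
    · refine Or.inr ?_
      rcases lt_trichotomy α β with h | h | h
      · refine ⟨β, ?_, fun γ hγ => ?_⟩
        · rw [Finsupp.add_apply, hα' β h, zero_add]; exact hβ
        · rw [Finsupp.add_apply, hα' γ (h.trans hγ), hβ' γ hγ, add_zero]
      · subst h
        refine ⟨α, ?_, fun γ hγ => ?_⟩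
        · rw [Finsupp.add_apply]; exact add_pos hα hβ
        · rw [Finsupp.add_apply, hα' γ hγ, hβ' γ hγ, add_zero]
      · refine ⟨α, ?_, fun γ hγ => ?_⟩
        · rw [Finsupp.add_apply, hβ' α h, add_zero]; exact hα
        · rw [Finsupp.add_apply, hα' γ hγ, hβ' γ (h.trans hγ), add_zero]

theorem mem_Pos {v : V} :
    v ∈ Pos ↔ v = 0 ∨ ∃ α : Idx, 0 < v (Sum.inr α) ∧ ∀ β, α < β → v (Sum.inr β) = 0 := Iff.rfl

theorem pos_neg (v : V) (h1 : v ∈ Pos) (h2 : -v ∈ Pos) : v = 0 := by
  rcases mem_Pos.1 h1 with h | ⟨α, hα, hα'⟩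
  · exact h
  · rcases mem_Pos.1 h2 with h | ⟨β, hβ, hβ'⟩
    · exact neg_eq_zero.1 h
    · exfalso
      rw [Finsupp.neg_apply] at hβ
      rcases lt_trichotomy α β with h | h | h
      · rw [hα' β h] at hβ; simp at hβ
      · subst h; omega
      · have := hβ' α h
        rw [Finsupp.neg_apply] at this
        omega

theorem ev_aux (z : Idx → K) (α : Idx) (u : V) :
    ev z (-u - (-Finsupp.single (Sum.inr α) 1)) = z α - ev z u := by
  rw [sub_neg_eq_add, map_add, ev_inr, map_neg]
  abel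

/-- every infinite set of names has a point at which it accumulates from above -/
theorem exists_acc {f : Idx → ℕ → V} (hf : Sys f)
    (hf' : ∀ v : ℕ → V, (∃ n₀, ∀ n ≥ n₀, Diss n v) → ∃ α, f α = v)
    {z : Idx → K} (hz : ∀ α, z α = val f α z) (A : Set V) (hA : A.Infinite) :
    ∃ α, ∀ U ∈ 𝓝 (0 : K),
      {y ∈ A | y - (-Finsupp.single (Sum.inr α) 1) ∈ Pos ∧
        ev z (y - (-Finsupp.single (Sum.inr α) 1)) ∈ U}.Infinite := by
  classical
  let s : ℕ → V := fun n => -(Set.Infinite.natEmbedding A hA n : V)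
  have hs : Function.Injective s := fun m n h =>
    (Set.Infinite.natEmbedding A hA).injective (Subtype.val_injective (neg_injective h))
  have hsA : ∀ n, -s n ∈ A := fun n => by
    simp only [s, neg_neg]
    exact (Set.Infinite.natEmbedding A hA n).2
  obtain ⟨σ, hσ, hd⟩ := exists_subseq hs
  obtain ⟨α, hα⟩ := hf' (s ∘ σ) ⟨0, fun n _ => hd n⟩
  refine ⟨α, fun U hU => ?_⟩
  have hval : ∀ n, f α n = s (σ n) := fun n => congrFun hα n
  have ht : Tendsto (fun n => ev z (-s (σ n) - (-Finsupp.single (Sum.inr α) 1))) (pt (τ α))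
      (𝓝 (0 : K)) := by
    rw [tendsto_pi_nhds]
    intro φ
    have h1 : Tendsto (fun n => ev z (f α n) φ) (pt (τ α)) (𝓝 (z α φ)) := by
      have h2 : z α φ = plim (pt (τ α)) fun n => ev z (f α n) φ := by
        conv_lhs => rw [hz α]
        rfl
      rw [h2]
      exact tendsto_plim _ _
    have h3 : Tendsto (fun n => z α φ - ev z (f α n) φ) (pt (τ α)) (𝓝 (z α φ - z α φ)) :=
      tendsto_const_nhds.sub h1
    rw [sub_self] at h3
    refine h3.congr fun n => ?_
    rw [hval n]
    exact (congrFun (ev_aux z α (s (σ n))) φ).symm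
  have hmem : {n | ev z (-s (σ n) - (-Finsupp.single (Sum.inr α) 1)) ∈ U} ∈
      (pt (τ α) : Filter ℕ) := ht hU
  have hinf : {n | ev z (-s (σ n) - (-Finsupp.single (Sum.inr α) 1)) ∈ U}.Infinite := by
    intro hfin
    have h1 : {n | ev z (-s (σ n) - (-Finsupp.single (Sum.inr α) 1)) ∈ U}ᶜ ∈
        (pt (τ α) : Filter ℕ) := by
      apply pt_le_atTop (τ α)
      rw [← Nat.cofinite_eq_atTop]
      exact hfin.compl_mem_cofinite
    have h2 := Filter.inter_mem hmem h1
    rw [Set.inter_compl_self] at h2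
    exact (pt (τ α)).empty_notMem h2
  refine (hinf.image (f := fun n => -s (σ n)) (fun m _ n _ h =>
    hσ.injective (hs (neg_injective h)))).mono ?_
  rintro _ ⟨n, hn, rfl⟩
  refine ⟨hsA _, ?_, hn⟩
  refine mem_Pos.2 (Or.inr ⟨α, ?_, fun β hβ => ?_⟩)
  · have h1 := hf.low α n α le_rfl
    rw [hval n] at h1
    simp [h1]
  · have h1 := hf.low α n β hβ.le
    rw [hval n] at h1
    have h2 : (Sum.inr α : X) ≠ Sum.inr β := fun hc => hβ.ne (Sum.inr_injective hc)
    simp [h1, Finsupp.single_eq_of_ne' h2]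

/-- There is a Hausdorff countably compact paratopological group which is not a topological
group. -/
theorem exists_para : ∃ t : TopologicalSpace V, @ContinuousAdd V t _ ∧ @T2Space V t ∧
    @CountablyCompactSpace V t ∧ ¬ @ContinuousNeg V t _ := by
  obtain ⟨f, hf, hf'⟩ := exists_sys
  obtain ⟨z, hz⟩ := exists_construction hf
  have hinj := ev_injective hf hz
  have hacc : ∀ A : Set V, A.Infinite → ∃ x, ∀ U ∈ 𝓝 (0 : K),
      {y ∈ A | y - x ∈ Pos ∧ ev z (y - x) ∈ U}.Infinite := fun A hA => by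
    obtain ⟨α, h⟩ := exists_acc hf hf' hz A hA
    exact ⟨_, h⟩
  refine ⟨coneTop (ev z) Pos, cone_continuousAdd _ _, cone_t2 _ _ hinj,
    cone_countablyCompact _ _ hinj hacc, cone_not_neg _ _ pos_neg ?_⟩
  have hinfV : (Set.univ : Set V).Infinite := by
    have : Infinite V := by
      rw [← Cardinal.aleph0_le_mk_iff, mk_V]
      exact aleph0_le_continuum
    exact Set.infinite_univ
  obtain ⟨x, hx⟩ := hacc Set.univ hinfV
  exact ⟨x, fun U hU => (hx U hU).mono fun y hy => hy.2⟩

end Pool.Agent.Y576.FA
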