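import Mathlib
import Pool.Agent.Y576.FA.Main

/-!
# Consequences of countable compactness for paratopological groups
-/

namespace Pool.Agent.Y576.FA

open Filter Topology Pointwise

/-- every infinite subset has an accumulation point -/
theorem cc_acc {X : Type} [TopologicalSpace X] [T1Space X] [CountablyCompactSpace X] {B : Set X}
    (hB : B.Infinite) : ∃ x, ∀ U ∈ 𝓝 x, (U ∩ B).Infinite := by
  obtain ⟨x, _, hx⟩ := isCountablyCompact_iff_infinite_subset_has_accPt.1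
    (CountablyCompactSpace.isCountablyCompact_univ (E := X)) B (Set.subset_univ _) hB
  refine ⟨x, fun U hU hfin => ?_⟩
  rw [accPt_iff_nhds] at hx
  have h1 : U ∩ ((U ∩ B) \ {x})ᶜ ∈ 𝓝 x := by
    refine inter_mem hU ((hfin.subset Set.sdiff_subset).isClosed.isOpen_compl.mem_nhds ?_)
    simp
  obtain ⟨y, ⟨hy1, hy2⟩, hyx⟩ := hx _ h1
  exact hy1.2 ⟨⟨hy1.1, hy2⟩, hyx⟩

/-- sequences have cluster points -/
theorem cc_seq {X : Type} [TopologicalSpace X] [CountablyCompactSpace X] (u : ℕ → X) :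
    ∃ x, ∀ U ∈ 𝓝 x, {n | u n ∈ U}.Infinite := by
  obtain ⟨x, _, hx⟩ := isCountablyCompact_iff_seq_clusterPt.1
    (CountablyCompactSpace.isCountablyCompact_univ (E := X)) u (Eventually.of_forall fun _ => trivial)
  refine ⟨x, fun U hU => ?_⟩
  have h1 := mapClusterPt_iff_frequently.1 hx U hU
  rw [Nat.frequently_atTop_iff_infinite] at h1
  exact h1

/-- locally finite families of nonempty open sets are finite -/
theorem cc_pseudo {X : Type} [TopologicalSpace X] [CountablyCompactSpace X] (F : Set (Set X))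
    (hF : ∀ O ∈ F, IsOpen O ∧ O.Nonempty)
    (hloc : ∀ x : X, ∃ U ∈ 𝓝 x, {O ∈ F | (O ∩ U).Nonempty}.Finite) : F.Finite := by
  by_contra hinf
  have hinf' : F.Infinite := hinf
  let O : ℕ → Set X := fun n => (hinf'.natEmbedding F n : Set X)
  have hO : Function.Injective O := Subtype.val_injective.comp (hinf'.natEmbedding F).injective
  have hOF : ∀ n, O n ∈ F := fun n => (hinf'.natEmbedding F n).2
  choose u hu using fun n => (hF (O n) (hOF n)).2
  obtain ⟨x, hx⟩ := cc_seq u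
  obtain ⟨U, hU, hfin⟩ := hloc x
  refine (hx U hU) ((hfin.preimage hO.injOn).subset fun n hn => ?_)
  exact ⟨hOF n, u n, hu n, hn⟩

section

variable {G : Type} [CommGroup G] [TopologicalSpace G] [ContinuousMul G]

omit [ContinuousMul G] in
/-- decreasing sequences of open sets -/
theorem cc_two [CountablyCompactSpace G] (U : ℕ → Set G) (hU : Antitone U)
    (hne : ∀ n, (U n).Nonempty) : (⋂ n, closure (U n)⁻¹).Nonempty := by
  choose u hu using hne
  obtain ⟨x, hx⟩ := cc_seq fun n => (u n)⁻¹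
  refine ⟨x, Set.mem_iInter.2 fun m => mem_closure_iff_nhds.2 fun W hW => ?_⟩
  obtain ⟨n, hn, hmn⟩ := (hx W hW).exists_gt m
  refine ⟨(u n)⁻¹, hn, ?_⟩
  rw [Set.mem_inv, inv_inv]
  exact hU hmn.le (hu n)

theorem exists_small {O : Set G} (hO : IsOpen O) (hne : O.Nonempty) :
    ∃ A : Set G, IsOpen A ∧ A.Nonempty ∧ A ⊆ O ∧ ∃ V ∈ 𝓝 (1 : G), A * V ⊆ O := by
  obtain ⟨x, hx⟩ := hne
  have h1 : (fun p : G × G => x * p.1 * p.2) ⁻¹' O ∈ 𝓝 ((1 : G), (1 : G)) := by
    refine (hO.preimage ?_).mem_nhds (by simpa using hx)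
    exact (continuous_const.mul continuous_fst).mul continuous_snd
  rw [mem_nhds_prod_iff'] at h1
  obtain ⟨V, V', hV, h1V, hV', h1V', h2⟩ := h1
  have hop : IsOpen (x • V) := (Homeomorph.mulLeft x).isOpenMap V hV
  refine ⟨x • V, hop, ⟨x, 1, h1V, by simp⟩, ?_, V', hV'.mem_nhds h1V', ?_⟩
  · rintro _ ⟨v, hv, rfl⟩
    have := h2 (show (v, (1 : G)) ∈ V ×ˢ V' from ⟨hv, h1V'⟩)
    simpa using this
  · rintro _ ⟨_, ⟨v, hv, rfl⟩, w, hw, rfl⟩
    exact h2 (show (v, w) ∈ V ×ˢ V' from ⟨hv, hw⟩)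

/-- countably compact commutative paratopological groups are Baire spaces -/
theorem cc_baire [CountablyCompactSpace G] : BaireSpace G := by
  refine ⟨fun f hf hd => ?_⟩
  rw [dense_iff_inter_open]
  intro W hW hWne
  choose! sm h1 h2 h3 V h4 h5 using fun (O : Set G) (hO : IsOpen O ∧ O.Nonempty) =>
    exists_small hO.1 hO.2
  let A : ℕ → Set G := fun n => Nat.rec (sm (W ∩ f 0)) (fun n A => sm (A ∩ f (n + 1))) n
  have hA0 : A 0 = sm (W ∩ f 0) := rfl
  have hA1 : ∀ n, A (n + 1) = sm (A n ∩ f (n + 1)) := fun n => rfl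
  have hgood0 : IsOpen (W ∩ f 0) ∧ (W ∩ f 0).Nonempty :=
    ⟨hW.inter (hf 0), (hd 0).inter_open_nonempty W hW hWne⟩
  have hA : ∀ n, IsOpen (A n) ∧ (A n).Nonempty := by
    intro n
    induction n with
    | zero => exact ⟨h1 _ hgood0, h2 _ hgood0⟩
    | succ n ih =>
      have hg : IsOpen (A n ∩ f (n + 1)) ∧ (A n ∩ f (n + 1)).Nonempty :=
        ⟨ih.1.inter (hf _), (hd _).inter_open_nonempty _ ih.1 ih.2⟩
      exact ⟨h1 _ hg, h2 _ hg⟩
  have hgood : ∀ n, IsOpen (A n ∩ f (n + 1)) ∧ (A n ∩ f (n + 1)).Nonempty := fun n =>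
    ⟨(hA n).1.inter (hf _), (hd _).inter_open_nonempty _ (hA n).1 (hA n).2⟩
  have hanti : Antitone A := antitone_nat_of_succ_le fun n =>
    (h3 _ (hgood n)).trans Set.inter_subset_left
  obtain ⟨y, hy⟩ := cc_two A hanti fun n => (hA n).2
  have key : ∀ (n : ℕ) (V : Set G), V ∈ 𝓝 (1 : G) → y⁻¹ ∈ A n * V := by
    intro n V hV
    have h6 := Set.mem_iInter.1 hy n
    rw [mem_closure_iff_nhds] at h6
    have h7 : y • V ∈ 𝓝 y := by
      have h := (Homeomorph.mulLeft y).isOpenMap.image_mem_nhds hV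
      have e1 : (Homeomorph.mulLeft y) (1 : G) = y := mul_one y
      rw [e1] at h
      exact h
    obtain ⟨_, ⟨v, hv, rfl⟩, h8⟩ := h6 _ h7
    refine ⟨(y • v)⁻¹, h8, v, hv, ?_⟩
    simp
  refine ⟨y⁻¹, ?_, Set.mem_iInter.2 fun n => ?_⟩
  · exact (h5 _ hgood0 (key 0 _ (h4 _ hgood0))).1
  · rcases n with _ | n
    · exact (h5 _ hgood0 (key 0 _ (h4 _ hgood0))).2
    · exact (h5 _ (hgood n) (key (n + 1) _ (h4 _ (hgood n)))).2

end

end Pool.Agent.Y576.FA
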